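import Pool.Agent.R629.Mirror.Twelve

set_option linter.unusedSectionVars false

namespace MirrorCode

open Finset Module

variable {G : Type*} [CommGroup G] [Fintype G] [DecidableEq G]

/-- indicator function -/
def ind (A : Finset G) (y : G) : ZMod 2 := if y ∈ A then 1 else 0

lemma sym_fst (A B : Finset G) (g y : G) : (symCheck A B g).1 y = ind A (y * g⁻¹) := by
  have h : y ∈ A.image (fun a => a * g) ↔ y * g⁻¹ ∈ A := by
    simp only [mem_image]
    constructor
    · rintro ⟨a, ha, rfl⟩; simpa using ha
    · intro h; exact ⟨_, h, by simp⟩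
  show (if y ∈ A.image (fun a => a * g) then (1 : ZMod 2) else 0) = _
  simp only [h, ind]

lemma sym_snd (A B : Finset G) (g y : G) : (symCheck A B g).2 y = ind B (y * g) := by
  have h : y ∈ B.image (fun b => b * g⁻¹) ↔ y * g ∈ B := by
    simp only [mem_image]
    constructor
    · rintro ⟨b, hb, rfl⟩; simpa using hb
    · intro h; exact ⟨_, h, by simp⟩
  show (if y ∈ B.image (fun b => b * g⁻¹) then (1 : ZMod 2) else 0) = _
  simp only [h, ind]

lemma tau_sym (A B : Finset G) (k g : G) : tau k (symCheck A B g) = symCheck A B (g * k) := by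
  refine Prod.ext (funext fun y => ?_) (funext fun y => ?_)
  · rw [tau_fst, sym_fst, sym_fst, mul_inv_rev, mul_assoc]
  · rw [tau_snd, sym_snd, sym_snd, mul_assoc, mul_comm k g]

/-- for an abelian group every choice of `A`, `B` is valid -/
lemma valid_sym (A B : Finset G) : Valid (symCheck A B) := by
  intro g h
  unfold comm
  rw [Finset.sum_add_distrib]
  have h1 : ∑ y, (symCheck A B g).2 y * (symCheck A B h).1 y =
      ∑ y, (symCheck A B g).1 y * (symCheck A B h).2 y := by
    refine Fintype.sum_equiv (Equiv.mulRight (h⁻¹ * g)) _ _ fun y => ?_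
    simp only [sym_fst, sym_snd, Equiv.coe_mulRight]
    have e1 : y * (h⁻¹ * g) * g⁻¹ = y * h⁻¹ := by group
    have e2 : y * (h⁻¹ * g) * h = y * g := by
      rw [mul_assoc, mul_comm (h⁻¹ * g) h, mul_inv_cancel_left]
    rw [e1, e2, mul_comm]
  rw [h1]
  exact CharTwo.add_self_eq_zero _

/-- the two constructions coincide for abelian groups -/
lemma asym_eq_sym (A B : Finset G) : asymCheck A B = symCheck A B := by
  funext g
  unfold asymCheck symCheck
  congr 2
  funext b
  exact mul_comm _ _

lemma comm_tau (k : G) (P Q : Pauli G) : comm (tau k P) Q = comm P (tau k Q) := by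
  unfold comm
  rw [Finset.sum_add_distrib, Finset.sum_add_distrib]
  congr 1
  · refine Fintype.sum_equiv (Equiv.mulRight k⁻¹) _ _ fun y => ?_
    simp
  · refine Fintype.sum_equiv (Equiv.mulRight k) _ _ fun y => ?_
    simp

variable {A B : Finset G}

lemma good_of (hn : Fintype.card G ≤ 12) (hk : 5 ≤ kParam (symCheck A B))
    (hd : 3 ≤ dParam (symCheck A B)) : Good (span (symCheck A B)) := by
  refine ⟨?_, ?_, ?_, hn, ?_⟩
  · intro k P hP
    have h1 : span (symCheck A B) ≤ (span (symCheck A B)).comap (tau k) := by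
      conv_lhs => unfold span
      rw [Submodule.span_le]
      rintro _ ⟨g, rfl⟩
      show tau k (symCheck A B g) ∈ span (symCheck A B)
      rw [tau_sym]
      exact Submodule.subset_span ⟨_, rfl⟩
    exact h1 hP
  · intro P hP Q hQ
    refine comm_span (S := symCheck A B) (P := P) ?_ Q hQ
    intro g
    exact comm_span (S := symCheck A B) (P := symCheck A B g)
      (fun h => valid_sym A B h g) P hP
  · unfold kParam at hk
    omega
  · intro P hw hP
    by_contra hnot
    have h1 : dParam (symCheck A B) ≤ wt P := Nat.sInf_le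
      ⟨P, fun g => by rw [comm_symm]; exact hP _ (Submodule.subset_span ⟨g, rfl⟩), hnot, rfl⟩
    omega

/-- the syndrome map -/
def sig (A B : Finset G) : Pauli G →ₗ[ZMod 2] (G → ZMod 2) :=
  LinearMap.pi fun g => commL (symCheck A B g)

lemma sig_apply (P : Pauli G) (g : G) : sig A B P g = comm (symCheck A B g) P := rfl

lemma sig_e (p : G) (s : ZMod 2 × ZMod 2) :
    sig A B (e p s) = syn (fun g => ind A g⁻¹) (ind B) p s := by
  funext g
  rw [sig_apply, comm_e, sym_fst, sym_snd]
  simp only [syn, Pi.add_apply, Pi.smul_apply, L_apply, smul_eq_mul, mul_inv_rev, inv_inv]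
  rw [mul_comm g p]
  ring

lemma finrank_sig : finrank (ZMod 2) (LinearMap.range (sig A B)) ≤
    finrank (ZMod 2) (span (symCheck A B)) := by
  let V := span (symCheck A B)
  let ev : Module.Dual (ZMod 2) V →ₗ[ZMod 2] (G → ZMod 2) :=
    { toFun := fun φ g => φ ⟨symCheck A B g, Submodule.subset_span ⟨g, rfl⟩⟩
      map_add' := fun _ _ => rfl
      map_smul' := fun _ _ => rfl }
  have h1 : LinearMap.range (sig A B) ≤ LinearMap.range ev := by
    rintro _ ⟨P, rfl⟩
    refine ⟨(commL P).domRestrict V, ?_⟩
    funext g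
    show comm P (symCheck A B g) = comm (symCheck A B g) P
    exact comm_symm _ _
  have h2 := Submodule.finrank_mono h1
  have h3 := LinearMap.finrank_range_le ev
  rw [Subspace.dual_finrank_eq] at h3
  exact h2.trans h3

/-- no abelian mirror code with `n ≤ 12` has `k ≥ 5` and `d ≥ 3` -/
theorem no_abelian (hn : Fintype.card G ≤ 12) (hk : 5 ≤ kParam (symCheck A B))
    (hd : 3 ≤ dParam (symCheck A B)) : False := by
  have hgood := good_of hn hk hd
  have hsyn : Syn (LinearMap.range (sig A B)) (fun g => ind A g⁻¹) (ind B) := by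
    refine ⟨?_, ?_, ?_, ?_, hn, ?_⟩
    · rintro k _ ⟨P, rfl⟩
      refine ⟨tau k⁻¹ P, ?_⟩
      funext g
      rw [L_apply, sig_apply, sig_apply, ← comm_tau, tau_sym]
    · refine ⟨e 1 (0, 1), ?_⟩
      rw [sig_e]
      simp [syn]
    · refine ⟨e 1 (1, 0), ?_⟩
      rw [sig_e]
      simp [syn]
    · have h1 := finrank_sig (A := A) (B := B)
      have h2 := hgood.dim
      omega
    · intro p q s t hne hcon
      rw [← sig_e, ← sig_e, ← map_add] at hcon
      refine hgood.no_low hne (wt_ee_le _ _ _ _) ?_
      apply comm_span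
      intro g
      exact congrFun hcon g
  exact hsyn.false

end MirrorCode
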