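import Mathlib

/-!
# Mirror codes

`G` is a finite group, qubits are indexed by the elements of `G`.  An `n`-qubit Pauli operator
up to phase is the pair of its `Z`-part and its `X`-part.
-/

set_option linter.unusedSectionVars false

namespace MirrorCode

open Finset Module

/-- `n`-qubit Pauli operators up to phase, `n = |G|`: the pair (`Z`-part, `X`-part). -/
abbrev Pauli (G : Type*) := (G → ZMod 2) × (G → ZMod 2)

section defs
variable {G : Type*} [Fintype G] [DecidableEq G]

/-- `Z(S) X(T)` -/
def ZX (S T : Finset G) : Pauli G :=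
  (fun q => if q ∈ S then 1 else 0, fun q => if q ∈ T then 1 else 0)

/-- the symplectic form; `comm P Q = 0` iff the operators commute -/
def comm (P Q : Pauli G) : ZMod 2 := ∑ q, (P.1 q * Q.2 q + P.2 q * Q.1 q)

/-- the weight: the number of qubits acted on nontrivially -/
def wt (P : Pauli G) : ℕ := (univ.filter fun q => P.1 q ≠ 0 ∨ P.2 q ≠ 0).card

/-- the `𝔽₂`-span of the checks -/
def span (S : G → Pauli G) : Submodule (ZMod 2) (Pauli G) := Submodule.span (ZMod 2) (Set.range S)

/-- the checks pairwise commute -/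
def Valid (S : G → Pauli G) : Prop := ∀ g h, comm (S g) (S h) = 0

/-- `k = n - dim V` -/
noncomputable def kParam (S : G → Pauli G) : ℕ := Fintype.card G - finrank (ZMod 2) (span S)

/-- `d`: minimum weight of a Pauli operator commuting with all checks whose vector is not in `V`
(the infimum of the empty set, which occurs only for `k = 0`, is `0`). -/
noncomputable def dParam (S : G → Pauli G) : ℕ :=
  sInf {w | ∃ P : Pauli G, (∀ g, comm (S g) P = 0) ∧ P ∉ span S ∧ wt P = w}

end defs

/-- symmetric mirror checks `S(g) = Z(Ag) X(Bg⁻¹)` -/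
def symCheck {G : Type*} [Group G] [DecidableEq G] (A B : Finset G) (g : G) : Pauli G :=
  ZX (A.image (fun a => a * g)) (B.image (fun b => b * g⁻¹))

/-- asymmetric mirror checks `S(g) = Z(Ag) X(g⁻¹B)` -/
def asymCheck {G : Type*} [Group G] [DecidableEq G] (A B : Finset G) (g : G) : Pauli G :=
  ZX (A.image (fun a => a * g)) (B.image (fun b => g⁻¹ * b))

/-- `[[n',k',d']]` dominates `[[n,k,d]]`; for `k = 0` the requirement `d' ≥ d` is vacuous. -/
def Dominates (n' k' d' n k d : ℕ) : Prop :=
  n' ≤ n ∧ k ≤ k' ∧ (k = 0 ∨ d ≤ d') ∧ (n' < n ∨ k < k' ∨ d < d')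

section lemmas
variable {G : Type*} [Fintype G] [DecidableEq G]

lemma comm_symm (P Q : Pauli G) : comm P Q = comm Q P := by
  unfold comm
  refine Finset.sum_congr rfl fun q _ => ?_
  ring

lemma comm_add_right (P Q R : Pauli G) : comm P (Q + R) = comm P Q + comm P R := by
  unfold comm
  rw [← Finset.sum_add_distrib]
  refine Finset.sum_congr rfl fun q _ => ?_
  simp only [Prod.fst_add, Prod.snd_add, Pi.add_apply]
  ring

lemma comm_smul_right (P Q : Pauli G) (c : ZMod 2) : comm P (c • Q) = c * comm P Q := by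
  unfold comm
  rw [Finset.mul_sum]
  refine Finset.sum_congr rfl fun q _ => ?_
  simp only [Prod.smul_fst, Prod.smul_snd, Pi.smul_apply, smul_eq_mul]
  ring

lemma comm_add_left (P Q R : Pauli G) : comm (P + Q) R = comm P R + comm Q R := by
  rw [comm_symm, comm_add_right, comm_symm R P, comm_symm R Q]

lemma comm_smul_left (P Q : Pauli G) (c : ZMod 2) : comm (c • P) Q = c * comm P Q := by
  rw [comm_symm, comm_smul_right, comm_symm]

/-- `comm P` as a linear map -/
def commL (P : Pauli G) : Pauli G →ₗ[ZMod 2] ZMod 2 where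
  toFun := comm P
  map_add' := comm_add_right P
  map_smul' := fun c Q => by simpa using comm_smul_right P Q c

@[simp] lemma commL_apply (P Q : Pauli G) : commL P Q = comm P Q := rfl

lemma comm_zero_right (P : Pauli G) : comm P 0 = 0 := by simp [comm]

lemma comm_zero_left (P : Pauli G) : comm 0 P = 0 := by simp [comm]

/-- elements commuting with the checks commute with their span -/
lemma comm_span {S : G → Pauli G} {P : Pauli G} (h : ∀ g, comm (S g) P = 0) :
    ∀ Q ∈ span S, comm P Q = 0 := by
  intro Q hQ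
  have : span S ≤ LinearMap.ker (commL P) := by
    unfold span
    rw [Submodule.span_le]
    rintro _ ⟨g, rfl⟩
    simp only [SetLike.mem_coe, LinearMap.mem_ker, commL_apply]
    rw [comm_symm]; exact h g
  exact this hQ

lemma comm_swap (P Q : Pauli G) : comm P.swap Q.swap = comm P Q := by
  unfold comm
  refine Finset.sum_congr rfl fun q _ => ?_
  simp only [Prod.fst_swap, Prod.snd_swap]
  ring

lemma wt_swap (P : Pauli G) : wt P.swap = wt P := by
  unfold wt
  congr 1
  ext q
  simp [or_comm]

lemma z2 (x : ZMod 2) : x = 0 ∨ x = 1 := by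
  revert x; decide

lemma addself (f : G → ZMod 2) : f + f = 0 := by
  ext q; exact CharTwo.add_self_eq_zero _

lemma addself_P (P : Pauli G) : P + P = 0 := by
  refine Prod.ext (addself _) (addself _)

/-- Two linear functionals vanishing on a subspace of codimension at most one. -/
lemma functionals {M : Type*} [AddCommGroup M] [Module (ZMod 2) M] [Module.Finite (ZMod 2) M]
    {U V : Submodule (ZMod 2) M} (hUV : U ≤ V) (hd : finrank (ZMod 2) V ≤ finrank (ZMod 2) U + 1)
    (f₁ f₂ : M →ₗ[ZMod 2] ZMod 2) (h1 : ∀ u ∈ U, f₁ u = 0) (h2 : ∀ u ∈ U, f₂ u = 0) :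
    (∀ v ∈ V, f₁ v = 0) ∨ (∀ v ∈ V, f₂ v = 0) ∨ (∀ v ∈ V, f₁ v = f₂ v) := by
  by_cases hf : ∀ v ∈ V, f₁ v = 0
  · exact Or.inl hf
  · right
    push Not at hf
    obtain ⟨v1, hv1, hne⟩ := hf
    have hnot : v1 ∉ U := fun h => hne (h1 _ h)
    have hlt : U < U ⊔ Submodule.span (ZMod 2) {v1} := by
      refine lt_of_le_of_ne le_sup_left ?_
      intro he
      exact hnot (he ▸ (le_sup_right : _ ≤ U ⊔ Submodule.span (ZMod 2) {v1})
        (Submodule.mem_span_singleton_self v1))
    have hle : U ⊔ Submodule.span (ZMod 2) {v1} ≤ V := by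
      refine sup_le hUV ?_
      rw [Submodule.span_singleton_le_iff_mem]
      exact hv1
    have hfr := Submodule.finrank_lt_finrank_of_lt hlt
    have heq : U ⊔ Submodule.span (ZMod 2) {v1} = V := by
      refine Submodule.eq_of_le_of_finrank_le hle (by omega)
    have hf1 : f₁ v1 = 1 := (z2 _).resolve_left hne
    rcases z2 (f₂ v1) with h0 | h0
    · left
      intro v hv
      rw [← heq] at hv
      obtain ⟨u, hu, w, hw, rfl⟩ := Submodule.mem_sup.1 hv
      obtain ⟨c, rfl⟩ := Submodule.mem_span_singleton.1 hw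
      rw [map_add, map_smul, h2 u hu, h0]
      simp
    · right
      intro v hv
      rw [← heq] at hv
      obtain ⟨u, hu, w, hw, rfl⟩ := Submodule.mem_sup.1 hv
      obtain ⟨c, rfl⟩ := Submodule.mem_span_singleton.1 hw
      rw [map_add, map_smul, map_add, map_smul, h1 u hu, h2 u hu, h0, hf1]

/-- the Pauli operator `Z^{s.1} X^{s.2}` on qubit `p` -/
def e (p : G) (s : ZMod 2 × ZMod 2) : Pauli G := (Pi.single p s.1, Pi.single p s.2)

lemma comm_e (P : Pauli G) (p : G) (s : ZMod 2 × ZMod 2) :
    comm P (e p s) = P.1 p * s.2 + P.2 p * s.1 := by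
  unfold comm e
  rw [Finset.sum_eq_single p]
  · simp
  · intro b _ hb
    simp [Pi.single_eq_of_ne hb]
  · intro h; exact absurd (Finset.mem_univ _) h

lemma e_zero (p : G) : e p (0, 0) = 0 := by
  unfold e; simp

lemma e_add (p : G) (s t : ZMod 2 × ZMod 2) : e p (s + t) = e p s + e p t := by
  unfold e
  simp [Pi.single_add]

lemma wt_zero : wt (0 : Pauli G) = 0 := by
  unfold wt; simp

/-- description of operators of weight at most two -/
lemma wt_le_two [Nonempty G] {P : Pauli G} (h : wt P ≤ 2) :
    (∃ p s, P = e p s) ∨ (∃ p q s t, p ≠ q ∧ P = e p s + e q t) := by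
  classical
  obtain ⟨g0⟩ := ‹Nonempty G›
  have hout : ∀ T : Finset G, (univ.filter fun q => P.1 q ≠ 0 ∨ P.2 q ≠ 0) = T →
      ∀ q, q ∉ T → P.1 q = 0 ∧ P.2 q = 0 := by
    intro T hT q hq
    rw [← hT] at hq
    simp only [ne_eq, mem_filter, mem_univ, true_and, not_or, not_not] at hq
    exact hq
  unfold wt at h
  rcases Nat.lt_or_ge (univ.filter fun q => P.1 q ≠ 0 ∨ P.2 q ≠ 0).card 1 with h0 | h0
  · left
    refine ⟨g0, (0, 0), ?_⟩
    have hT : (univ.filter fun q => P.1 q ≠ 0 ∨ P.2 q ≠ 0) = ∅ := by
      rw [← Finset.card_eq_zero]; omega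
    rw [e_zero]
    refine Prod.ext (funext fun q => ?_) (funext fun q => ?_)
    · exact (hout _ hT q (by simp)).1
    · exact (hout _ hT q (by simp)).2
  · rcases Nat.lt_or_ge (univ.filter fun q => P.1 q ≠ 0 ∨ P.2 q ≠ 0).card 2 with h1 | h1
    · left
      obtain ⟨p, hp⟩ := Finset.card_eq_one.1 (le_antisymm (Nat.lt_succ_iff.1 h1) h0)
      refine ⟨p, (P.1 p, P.2 p), ?_⟩
      refine Prod.ext (funext fun q => ?_) (funext fun q => ?_)
      · by_cases hq : q = p
        · subst hq; simp [e]
        · rw [(hout _ hp q (by simpa using hq)).1]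
          simp [e, Pi.single_eq_of_ne hq]
      · by_cases hq : q = p
        · subst hq; simp [e]
        · rw [(hout _ hp q (by simpa using hq)).2]
          simp [e, Pi.single_eq_of_ne hq]
    · right
      obtain ⟨p, r, hpr, hp⟩ := Finset.card_eq_two.1 (le_antisymm h h1)
      refine ⟨p, r, (P.1 p, P.2 p), (P.1 r, P.2 r), hpr, ?_⟩
      refine Prod.ext (funext fun q => ?_) (funext fun q => ?_)
      · by_cases hq : q = p
        · subst hq; simp [e, Pi.single_eq_of_ne hpr]
        · by_cases hq' : q = r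
          · subst hq'; simp [e, Pi.single_eq_of_ne hq]
          · rw [(hout _ hp q (by simp [hq, hq'])).1]
            simp [e, Pi.single_eq_of_ne hq, Pi.single_eq_of_ne hq']
      · by_cases hq : q = p
        · subst hq; simp [e, Pi.single_eq_of_ne hpr]
        · by_cases hq' : q = r
          · subst hq'; simp [e, Pi.single_eq_of_ne hq]
          · rw [(hout _ hp q (by simp [hq, hq'])).2]
            simp [e, Pi.single_eq_of_ne hq, Pi.single_eq_of_ne hq']

lemma wt_e_le (p : G) (s : ZMod 2 × ZMod 2) : wt (e p s) ≤ 1 := by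
  unfold wt
  refine (Finset.card_le_card (t := {p}) ?_).trans (by simp)
  intro q hq
  simp only [ne_eq, mem_filter, mem_univ, true_and] at hq
  simp only [mem_singleton]
  by_contra hne
  simp [e, Pi.single_eq_of_ne hne] at hq

lemma wt_add_le (P Q : Pauli G) : wt (P + Q) ≤ wt P + wt Q := by
  unfold wt
  refine (Finset.card_le_card ?_).trans (Finset.card_union_le _ _)
  intro q hq
  simp only [ne_eq, mem_filter, mem_univ, true_and, mem_union, Prod.fst_add, Prod.snd_add,
    Pi.add_apply] at hq ⊢
  by_contra hcon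
  push Not at hcon
  obtain ⟨⟨h1, h2⟩, h3, h4⟩ := hcon
  rw [h1, h2, h3, h4] at hq
  simp at hq

lemma wt_ee_le (p q : G) (s t : ZMod 2 × ZMod 2) : wt (e p s + e q t) ≤ 2 :=
  (wt_add_le _ _).trans (by have := wt_e_le p s; have := wt_e_le q t; omega)

end lemmas

end MirrorCode
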