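import Pool.Agent.R629.Mirror.Basic

set_option linter.unusedSectionVars false
set_option linter.unusedDecidableInType false

namespace MirrorCode

open Finset Module QuaternionGroup

/-- The dicyclic group of order 12 -/
abbrev Dic3 := QuaternionGroup 3

/-- `A = {1, r², r³, x}` -/
def A₀ : Finset Dic3 := {a 0, a 2, a 3, xa 0}

/-- `B = {1, r, r², x r², x r³, x r⁴}` -/
def B₀ : Finset Dic3 := {a 0, a 1, a 2, xa 2, xa 3, xa 4}

def inA : Dic3 → Bool
  | a i => i == 0 || i == 2 || i == 3
  | xa i => i == 0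

def inB : Dic3 → Bool
  | a i => i == 0 || i == 1 || i == 2
  | xa i => i == 2 || i == 3 || i == 4

lemma inA_iff (x : Dic3) : inA x = true ↔ x ∈ A₀ := by
  revert x; decide +kernel

lemma inB_iff (x : Dic3) : inB x = true ↔ x ∈ B₀ := by
  revert x; decide +kernel

lemma S_fst (g y : Dic3) : (asymCheck A₀ B₀ g).1 y = if inA (y * g⁻¹) then 1 else 0 := by
  have h : y ∈ A₀.image (fun a => a * g) ↔ y * g⁻¹ ∈ A₀ := by
    simp only [mem_image]
    constructor
    · rintro ⟨a, ha, rfl⟩; simpa using ha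
    · intro h; exact ⟨_, h, by simp⟩
  show (if y ∈ A₀.image (fun a => a * g) then (1 : ZMod 2) else 0) = _
  simp only [h, ← inA_iff]

lemma S_snd (g y : Dic3) : (asymCheck A₀ B₀ g).2 y = if inB (g * y) then 1 else 0 := by
  have h : y ∈ B₀.image (fun b => g⁻¹ * b) ↔ g * y ∈ B₀ := by
    simp only [mem_image]
    constructor
    · rintro ⟨b, hb, rfl⟩; simpa using hb
    · intro h; exact ⟨_, h, by simp⟩
  show (if y ∈ B₀.image (fun b => g⁻¹ * b) then (1 : ZMod 2) else 0) = _
  simp only [h, ← inB_iff]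

/-- elements of the group as a list -/
def els : List Dic3 := [a 0, a 1, a 2, a 3, a 4, a 5, xa 0, xa 1, xa 2, xa 3, xa 4, xa 5]

lemma mem_els (x : Dic3) : x ∈ els := by revert x; decide +kernel

/-- Boolean syndrome of `Z^s X^t` on qubit `p` at `g` -/
def synd (g p : Dic3) (s t : Bool) : Bool := xor (t && inA (p * g⁻¹)) (s && inB (g * p))

def b2z (b : Bool) : ZMod 2 := if b then 1 else 0

lemma b2z_xor (b c : Bool) : b2z (xor b c) = b2z b + b2z c := by revert b c; decide

lemma b2z_inj (b c : Bool) : b2z b = b2z c ↔ b = c := by revert b c; decide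

lemma b2z_surj (x : ZMod 2) : ∃ b, b2z b = x := by revert x; decide

lemma comm_synd (g p : Dic3) (s t : Bool) :
    comm (asymCheck A₀ B₀ g) (e p (b2z s, b2z t)) = b2z (synd g p s t) := by
  rw [comm_e, S_fst, S_snd, synd, b2z_xor]
  cases s <;> cases t <;> simp [b2z]

lemma table1 : (els.all fun p => els.all fun q => [false, true].all fun s => [false, true].all fun t =>
    [false, true].all fun s' => [false, true].all fun t' =>
      (els.any fun g => xor (synd g p s t) (synd g q s' t')) ||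
        (!s && !t && !s' && !t') || (p == q && s == s' && t == t')) = true := by
  decide +kernel

/-- the checks in Boolean form -/
def SS (g : Dic3) : Pauli Dic3 := (fun y => b2z (inA (y * g⁻¹)), fun y => b2z (inB (g * y)))

lemma asym_eq (g : Dic3) : asymCheck A₀ B₀ g = SS g := by
  refine Prod.ext (funext fun y => ?_) (funext fun y => ?_)
  · rw [S_fst]; rfl
  · rw [S_snd]; rfl

lemma valid_dic : Valid (asymCheck A₀ B₀) := by
  have h : ∀ g h, comm (SS g) (SS h) = 0 := by
    unfold comm
    decide +kernel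
  intro g k
  rw [asym_eq, asym_eq]
  exact h g k

def bas : Fin 7 → Dic3 := ![a 0, a 1, a 2, a 3, a 4, a 5, xa 0]

def dual : Fin 7 → Pauli Dic3 := ![e (a 1) (0, 1) + e (a 3) (1, 1), e (xa 1) (0, 1), e (xa 2) (0, 1),
  e (a 0) (0, 1) + e (a 1) (1, 1), e (a 0) (1, 1) + e (a 5) (1, 0), e (xa 5) (0, 1),
  e (a 0) (1, 0) + e (xa 4) (1, 0)]

lemma dual_spec : ∀ i j, comm (SS (bas i)) (dual j) = if i = j then 1 else 0 := by
  unfold comm
  decide +kernel

lemma li_bas : LinearIndependent (ZMod 2) (fun i => asymCheck A₀ B₀ (bas i)) := by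
  rw [Fintype.linearIndependent_iff]
  intro c hc j
  have h1 : commL (dual j) (∑ i, c i • asymCheck A₀ B₀ (bas i)) = 0 := by rw [hc, map_zero]
  rw [map_sum] at h1
  rw [Finset.sum_eq_single j] at h1
  · rw [map_smul, commL_apply, comm_symm, asym_eq, dual_spec] at h1
    simpa using h1
  · intro b _ hb
    rw [map_smul, commL_apply, comm_symm, asym_eq, dual_spec, if_neg hb]
    simp
  · intro h; exact absurd (Finset.mem_univ _) h

lemma rel7 : SS (xa 1) = SS (a 0) + SS (a 1) + SS (a 3) + SS (a 5) + SS (xa 0) := by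
  decide +kernel
lemma rel8 : SS (xa 2) = SS (a 2) + SS (a 3) + SS (a 4) + SS (a 5) + SS (xa 0) := by
  decide +kernel
lemma rel9 : SS (xa 3) = SS (a 1) + SS (a 4) + SS (xa 0) := by
  decide +kernel
lemma rel10 : SS (xa 4) = SS (a 0) + SS (a 1) + SS (a 2) + SS (a 3) + SS (xa 0) := by
  decide +kernel
lemma rel11 : SS (xa 5) = SS (a 0) + SS (a 2) + SS (a 4) + SS (a 5) + SS (xa 0) := by
  decide +kernel

lemma span_eq : span (asymCheck A₀ B₀) =
    Submodule.span (ZMod 2) (Set.range fun i => asymCheck A₀ B₀ (bas i)) := by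
  apply le_antisymm
  · unfold span
    rw [Submodule.span_le]
    rintro _ ⟨g, rfl⟩
    have hb : ∀ i, asymCheck A₀ B₀ (bas i) ∈
        Submodule.span (ZMod 2) (Set.range fun i => asymCheck A₀ B₀ (bas i)) :=
      fun i => Submodule.subset_span ⟨i, rfl⟩
    simp only [asym_eq] at hb ⊢
    have b0 := hb 0
    have b1 := hb 1
    have b2 := hb 2
    have b3 := hb 3
    have b4 := hb 4
    have b5 := hb 5
    have b6 := hb 6
    have e0 : bas 0 = a 0 := rfl
    have e1 : bas 1 = a 1 := rfl
    have e2 : bas 2 = a 2 := rfl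
    have e3 : bas 3 = a 3 := rfl
    have e4 : bas 4 = a 4 := rfl
    have e5 : bas 5 = a 5 := rfl
    have e6 : bas 6 = xa 0 := rfl
    rw [e0] at b0; rw [e1] at b1; rw [e2] at b2; rw [e3] at b3
    rw [e4] at b4; rw [e5] at b5; rw [e6] at b6
    have hg := mem_els g
    simp only [els, List.mem_cons, List.not_mem_nil, or_false] at hg
    rcases hg with rfl | rfl | rfl | rfl | rfl | rfl | rfl | rfl | rfl | rfl | rfl | rfl
    · exact b0
    · exact b1
    · exact b2
    · exact b3
    · exact b4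
    · exact b5
    · exact b6
    · rw [rel7]
      exact add_mem (add_mem (add_mem (add_mem b0 b1) b3) b5) b6
    · rw [rel8]
      exact add_mem (add_mem (add_mem (add_mem b2 b3) b4) b5) b6
    · rw [rel9]
      exact add_mem (add_mem b1 b4) b6
    · rw [rel10]
      exact add_mem (add_mem (add_mem (add_mem b0 b1) b2) b3) b6
    · rw [rel11]
      exact add_mem (add_mem (add_mem (add_mem b0 b2) b4) b5) b6
  · unfold span
    apply Submodule.span_mono
    rintro _ ⟨i, rfl⟩
    exact ⟨_, rfl⟩

lemma finrank_dic : finrank (ZMod 2) (span (asymCheck A₀ B₀)) = 7 := by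
  rw [span_eq, finrank_span_eq_card li_bas]
  simp

lemma card_dic : Fintype.card Dic3 = 12 := by decide +kernel

lemma k_dic : kParam (asymCheck A₀ B₀) = 5 := by
  unfold kParam
  rw [finrank_dic, card_dic]

/-- a logical operator of weight three -/
def P₀ : Pauli Dic3 := e (a 0) (1, 0) + e (a 1) (1, 1) + e (a 4) (0, 1)

/-- an operator commuting with the checks but not with `P₀` -/
def Q₀ : Pauli Dic3 := e (a 0) (1, 0) + e (a 1) (0, 1) + e (xa 2) (1, 1)

lemma P₀_comm : ∀ g, comm (SS g) P₀ = 0 := by unfold comm; decide +kernel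
lemma Q₀_comm : ∀ g, comm (SS g) Q₀ = 0 := by unfold comm; decide +kernel
lemma PQ₀ : comm Q₀ P₀ = 1 := by unfold comm; decide +kernel
lemma wt_P₀ : wt P₀ = 3 := by unfold wt; decide +kernel

lemma low_dic (P : Pauli Dic3) (hP : ∀ g, comm (asymCheck A₀ B₀ g) P = 0) (hw : wt P ≤ 2) :
    P = 0 := by
  have key : ∀ p q s t s' t', (∀ g, xor (synd g p s t) (synd g q s' t') = false) →
      (s = false ∧ t = false ∧ s' = false ∧ t' = false) ∨ (p = q ∧ s = s' ∧ t = t') := by
    intro p q s t s' t' h
    have h1 := table1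
    simp only [List.all_eq_true] at h1
    have h2 := h1 p (mem_els p) q (mem_els q) s (by cases s <;> simp) t (by cases t <;> simp)
      s' (by cases s' <;> simp) t' (by cases t' <;> simp)
    have h3 : (els.any fun g => xor (synd g p s t) (synd g q s' t')) = false := by
      rw [List.any_eq_false]
      intro g _
      rw [h g]; simp
    rw [h3] at h2
    simp only [Bool.false_or, Bool.or_eq_true, Bool.and_eq_true, Bool.not_eq_true',
      beq_iff_eq] at h2
    tauto
  rcases wt_le_two hw with ⟨p, ⟨s, t⟩, rfl⟩ | ⟨p, q, ⟨s, t⟩, ⟨s', t'⟩, hpq, rfl⟩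
  · obtain ⟨s, rfl⟩ := b2z_surj s
    obtain ⟨t, rfl⟩ := b2z_surj t
    have h := key p p s t false false (by
      intro g
      have h1 := hP g
      rw [comm_synd] at h1
      have h2 : synd g p s t = false := (b2z_inj _ false).1 (by rw [h1]; rfl)
      rw [h2]; simp [synd])
    rcases h with ⟨rfl, rfl, -⟩ | ⟨-, rfl, rfl⟩
    · exact e_zero p
    · exact e_zero p
  · obtain ⟨s, rfl⟩ := b2z_surj s
    obtain ⟨t, rfl⟩ := b2z_surj t
    obtain ⟨s', rfl⟩ := b2z_surj s'
    obtain ⟨t', rfl⟩ := b2z_surj t'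
    have h := key p q s t s' t' (by
      intro g
      have h1 := hP g
      rw [comm_add_right, comm_synd, comm_synd, ← b2z_xor] at h1
      exact (b2z_inj _ false).1 (by rw [h1]; rfl))
    rcases h with ⟨rfl, rfl, rfl, rfl⟩ | ⟨h, -⟩
    · show e p (0, 0) + e q (0, 0) = 0
      rw [e_zero, e_zero, add_zero]
    · exact absurd h hpq

lemma d_dic : dParam (asymCheck A₀ B₀) = 3 := by
  unfold dParam
  have hmem : 3 ∈ {w | ∃ P : Pauli Dic3, (∀ g, comm (asymCheck A₀ B₀ g) P = 0) ∧
      P ∉ span (asymCheck A₀ B₀) ∧ wt P = w} := by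
    refine ⟨P₀, fun g => by rw [asym_eq]; exact P₀_comm g, ?_, wt_P₀⟩
    intro hmem
    have h := comm_span (S := asymCheck A₀ B₀) (P := Q₀)
      (fun g => by rw [asym_eq]; exact Q₀_comm g) P₀ hmem
    rw [PQ₀] at h
    exact absurd h (by decide)
  apply le_antisymm
  · exact Nat.sInf_le hmem
  · apply le_csInf ⟨3, hmem⟩
    rintro w ⟨P, hP, hnot, rfl⟩
    by_contra hlt
    push Not at hlt
    have := low_dic P hP (by omega)
    rw [this] at hnot
    exact hnot (zero_mem _)

lemma not_comm_dic : ∃ x y : Dic3, x * y ≠ y * x := ⟨a 1, xa 0, by decide⟩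

end MirrorCode
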