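import Pool.Agent.R629.Mirror.Basic

set_option linter.unusedSectionVars false

namespace MirrorCode

open Finset Module

variable {G : Type*} [CommGroup G] [Fintype G] [DecidableEq G]

/-- the translation `(z, x) ↦ (z(· k⁻¹), x(· k))` -/
def tau (k : G) : Pauli G →ₗ[ZMod 2] Pauli G where
  toFun P := (fun y => P.1 (y * k⁻¹), fun y => P.2 (y * k))
  map_add' _ _ := rfl
  map_smul' _ _ := rfl

@[simp] lemma tau_fst (k : G) (P : Pauli G) (y : G) : (tau k P).1 y = P.1 (y * k⁻¹) := rfl
@[simp] lemma tau_snd (k : G) (P : Pauli G) (y : G) : (tau k P).2 y = P.2 (y * k) := rfl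

/-- the abstract properties of the span of the checks of an abelian mirror code with
`n ≤ 12`, `k ≥ 5`, `d ≥ 3` -/
structure Good (V : Submodule (ZMod 2) (Pauli G)) : Prop where
  inv : ∀ k, ∀ P ∈ V, tau k P ∈ V
  iso : ∀ P ∈ V, ∀ Q ∈ V, comm P Q = 0
  dim : finrank (ZMod 2) V + 5 ≤ Fintype.card G
  small : Fintype.card G ≤ 12
  low : ∀ P, wt P ≤ 2 → (∀ Q ∈ V, comm P Q = 0) → P ∈ V

/-- swapping `Z` and `X` -/
def swapL : Pauli G ≃ₗ[ZMod 2] Pauli G := LinearEquiv.prodComm (ZMod 2) _ _

@[simp] lemma swapL_apply (P : Pauli G) : swapL P = P.swap := rfl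

lemma Good.swap {V : Submodule (ZMod 2) (Pauli G)} (h : Good V) :
    Good (V.comap (swapL (G := G)).toLinearMap) := by
  refine ⟨?_, ?_, ?_, h.small, ?_⟩
  · intro k P hP
    have h1 := h.inv k⁻¹ P.swap hP
    have h2 : tau k⁻¹ P.swap = (tau k P).swap := by
      refine Prod.ext (funext fun y => ?_) (funext fun y => ?_) <;> simp
    rw [h2] at h1
    exact h1
  · intro P hP Q hQ
    rw [← comm_swap]
    exact h.iso _ hP _ hQ
  · have : finrank (ZMod 2) (V.comap (swapL (G := G)).toLinearMap) = finrank (ZMod 2) V := by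
      have e1 : V.comap (swapL (G := G)).toLinearMap =
          V.map ((swapL (G := G)).symm : Pauli G →ₗ[ZMod 2] Pauli G) :=
        (Submodule.map_equiv_eq_comap_symm (swapL (G := G)).symm V).symm
      rw [e1]
      exact LinearEquiv.finrank_map_eq _ _
    rw [this]
    exact h.dim
  · intro P hw hP
    have h1 := h.low P.swap (by rw [wt_swap]; exact hw) (by
      intro Q hQ
      have h2 := hP Q.swap (by simpa using hQ)
      rw [← comm_swap] at h2
      simpa using h2)
    exact h1

/-- the projection to the `Z`-part -/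
def zproj (V : Submodule (ZMod 2) (Pauli G)) : Submodule (ZMod 2) (G → ZMod 2) :=
  V.map (LinearMap.fst (ZMod 2) _ _)

lemma finrank_zproj_le (V : Submodule (ZMod 2) (Pauli G)) :
    finrank (ZMod 2) (zproj V) ≤ finrank (ZMod 2) V :=
  Submodule.finrank_map_le _ _

/-- Lemma D2 -/
lemma codim_pairs (K : Submodule (ZMod 2) (G → ZMod 2)) (u : G)
    (hK : ∀ a : G, (Pi.single a 1 + Pi.single (a * u) 1 : G → ZMod 2) ∈ K) :
    Fintype.card G ≤ finrank (ZMod 2) K + Fintype.card G / orderOf u := by
  classical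
  let H := Subgroup.zpowers u
  have hpow : ∀ (a : G) (n : ℕ), (Pi.single a 1 + Pi.single (a * u ^ n) 1 : G → ZMod 2) ∈ K := by
    intro a n
    induction n with
    | zero => simp only [pow_zero, mul_one]; rw [addself]; exact zero_mem _
    | succ n ih =>
      have h1 := hK (a * u ^ n)
      have h2 := add_mem ih h1
      have h3 : (Pi.single a 1 + Pi.single (a * u ^ n) 1 +
          (Pi.single (a * u ^ n) 1 + Pi.single (a * u ^ n * u) 1) : G → ZMod 2) =
          Pi.single a 1 + Pi.single (a * u ^ (n + 1)) 1 := by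
        have := addself (Pi.single (a * u ^ n) 1 : G → ZMod 2)
        rw [pow_succ, ← mul_assoc]
        calc _ = (Pi.single a 1 : G → ZMod 2) + (Pi.single (a * u ^ n) 1 +
            Pi.single (a * u ^ n) 1) + Pi.single (a * u ^ n * u) 1 := by abel
          _ = _ := by rw [this, add_zero]
      rw [h3] at h2
      exact h2
  let rep : G ⧸ H → G := Quotient.out
  let R : Submodule (ZMod 2) (G → ZMod 2) :=
    Submodule.span (ZMod 2) (Set.range fun c : G ⧸ H => (Pi.single (rep c) 1 : G → ZMod 2))
  have hR : finrank (ZMod 2) R ≤ Fintype.card (G ⧸ H) := finrank_range_le_card _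
  have hcard : Fintype.card (G ⧸ H) = Fintype.card G / orderOf u := by
    have h1 := Subgroup.card_eq_card_quotient_mul_card_subgroup H
    rw [Nat.card_zpowers, Nat.card_eq_fintype_card, Nat.card_eq_fintype_card] at h1
    rw [h1, Nat.mul_div_cancel _ (orderOf_pos u)]
  have htop : K ⊔ R = ⊤ := by
    rw [eq_top_iff]
    intro f _
    have hf : f = ∑ a : G, f a • (Pi.single a 1 : G → ZMod 2) := by
      ext q
      rw [Finset.sum_apply]
      simp [Pi.single_apply]
    rw [hf]
    refine Submodule.sum_mem _ fun a _ => Submodule.smul_mem _ _ ?_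
    have hq : ((rep (QuotientGroup.mk a) : G) : G ⧸ H) = QuotientGroup.mk a := Quotient.out_eq _
    rw [QuotientGroup.eq] at hq
    obtain ⟨n, hn⟩ := (mem_zpowers_iff_mem_range_orderOf (x := u)).1 hq |> fun h => by
      simpa using h
    have h1 := hpow (rep (QuotientGroup.mk a)) n
    rw [hn.2, mul_inv_cancel_left] at h1
    have h2 : (Pi.single (rep (QuotientGroup.mk a)) 1 : G → ZMod 2) ∈ R :=
      Submodule.subset_span ⟨_, rfl⟩
    have h3 := add_mem (Submodule.mem_sup_left h1 : _ ∈ K ⊔ R) (Submodule.mem_sup_right h2)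
    have h4 : (Pi.single (rep (QuotientGroup.mk a)) 1 + Pi.single a 1 +
        Pi.single (rep (QuotientGroup.mk a)) 1 : G → ZMod 2) = Pi.single a 1 := by
      have := addself (Pi.single (rep (QuotientGroup.mk a)) 1 : G → ZMod 2)
      calc _ = (Pi.single (rep (QuotientGroup.mk a)) 1 +
          Pi.single (rep (QuotientGroup.mk a)) 1 : G → ZMod 2) + Pi.single a 1 := by abel
        _ = _ := by rw [this, zero_add]
    rw [h4] at h3
    exact h3
  have hsum := Submodule.finrank_add_le_finrank_add_finrank K R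
  rw [htop, finrank_top, Module.finrank_fintype_fun_eq_card] at hsum
  omega

lemma Good.single_fst {V : Submodule (ZMod 2) (Pauli G)} (h : Good V) {P : Pauli G} (hP : P ∈ V)
    {p : G} (hp : P.1 = Pi.single p 1) : False := by
  have h1 : ∀ a : G, (Pi.single a 1 : G → ZMod 2) ∈ zproj V := by
    intro a
    refine ⟨tau (a * p⁻¹) P, h.inv _ _ hP, ?_⟩
    ext y
    simp only [LinearMap.fst_apply, tau_fst, hp]
    by_cases hy : y = a
    · subst hy; simp
    · rw [Pi.single_eq_of_ne hy, Pi.single_eq_of_ne]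
      intro hcon
      apply hy
      have h5 : y = p * (a * p⁻¹) := mul_inv_eq_iff_eq_mul.1 hcon
      rw [h5, mul_comm p, inv_mul_cancel_right]
  have htop : zproj V = ⊤ := by
    rw [eq_top_iff]
    intro f _
    have hf : f = ∑ a : G, f a • (Pi.single a 1 : G → ZMod 2) := by
      ext q
      rw [Finset.sum_apply]
      simp [Pi.single_apply]
    rw [hf]
    exact Submodule.sum_mem _ fun a _ => Submodule.smul_mem _ _ (h1 a)
  have h2 := finrank_zproj_le V
  rw [htop, finrank_top, Module.finrank_fintype_fun_eq_card] at h2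
  have := h.dim
  omega

/-- the translates of an element of `V` -/
def trans (P : Pauli G) : Submodule (ZMod 2) (Pauli G) :=
  Submodule.span (ZMod 2) (Set.range fun k => tau k P)

lemma Good.trans_le {V : Submodule (ZMod 2) (Pauli G)} (h : Good V) {P : Pauli G} (hP : P ∈ V) :
    trans P ≤ V := by
  unfold trans
  rw [Submodule.span_le]
  rintro _ ⟨k, rfl⟩
  exact h.inv k P hP

lemma Good.pair {V : Submodule (ZMod 2) (Pauli G)} (h : Good V) {P : Pauli G} (hP : P ∈ V)
    {p q : G} (hpq : p ≠ q) (hp : P.1 = Pi.single p 1 + Pi.single q 1) :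
    orderOf (p⁻¹ * q) = 2 ∧ (Fintype.card G = 10 ∨ Fintype.card G = 12) ∧
      finrank (ZMod 2) V ≤ finrank (ZMod 2) (trans P) + 1 := by
  have hle := Submodule.finrank_mono (h.trans_le hP)
  have h1 : ∀ a : G, (Pi.single a 1 + Pi.single (a * (p⁻¹ * q)) 1 : G → ZMod 2) ∈
      zproj (trans P) := by
    intro a
    refine ⟨tau (a * p⁻¹) P, Submodule.subset_span ⟨_, rfl⟩, ?_⟩
    ext y
    simp only [LinearMap.fst_apply, tau_fst, hp, Pi.add_apply]
    have e1 : (Pi.single p 1 : G → ZMod 2) (y * (a * p⁻¹)⁻¹) = (Pi.single a 1 : G → ZMod 2) y := by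
      rw [Pi.single_apply, Pi.single_apply]
      refine if_congr ?_ rfl rfl
      rw [mul_inv_eq_iff_eq_mul, mul_comm p, inv_mul_cancel_right]
    have e2 : (Pi.single q 1 : G → ZMod 2) (y * (a * p⁻¹)⁻¹) =
        (Pi.single (a * (p⁻¹ * q)) 1 : G → ZMod 2) y := by
      rw [Pi.single_apply, Pi.single_apply]
      refine if_congr ?_ rfl rfl
      rw [mul_inv_eq_iff_eq_mul, mul_comm q, mul_assoc]
    rw [e1, e2]
  have h2 := codim_pairs (zproj (trans P)) (p⁻¹ * q) h1
  have h3 := finrank_zproj_le (trans P)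
  have h4 := h.dim
  have h5 := h.small
  have hdvd : orderOf (p⁻¹ * q) ∣ Fintype.card G := orderOf_dvd_card
  have hpos := orderOf_pos (p⁻¹ * q)
  have hne1 : orderOf (p⁻¹ * q) ≠ 1 := by
    intro hcon
    rw [orderOf_eq_one_iff] at hcon
    exact hpq (inv_mul_eq_one.1 hcon)
  have hlt3 : orderOf (p⁻¹ * q) < 3 := by
    by_contra hcon
    push Not at hcon
    have : Fintype.card G / orderOf (p⁻¹ * q) ≤ 12 / 3 := Nat.div_le_div h5 hcon (by norm_num)
    omega
  have heq : orderOf (p⁻¹ * q) = 2 := by omega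
  rw [heq] at h2 hdvd
  refine ⟨heq, ?_, ?_⟩ <;> omega

lemma Good.low' {V : Submodule (ZMod 2) (Pauli G)} (h : Good V) (p q : G) (s t : ZMod 2 × ZMod 2)
    (hc : ∀ Q ∈ V, comm (e p s) Q + comm (e q t) Q = 0) : e p s + e q t ∈ V :=
  h.low _ (wt_ee_le _ _ _ _) (fun Q hQ => by rw [comm_add_left]; exact hc Q hQ)

lemma comm_e_left (Q : Pauli G) (p : G) (s : ZMod 2 × ZMod 2) :
    comm (e p s) Q = Q.1 p * s.2 + Q.2 p * s.1 := by
  rw [comm_symm, comm_e]

lemma Good.ZZ {V : Submodule (ZMod 2) (Pauli G)} (h : Good V)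
    {p q : G} (hpq : p ≠ q) (hP : (Pi.single p 1 + Pi.single q 1, 0) ∈ V) : False := by
  obtain ⟨-, hcard, hfr⟩ := h.pair hP hpq rfl
  have hw : ∃ w : G, 3 ≤ orderOf w := by
    rcases hcard with h10 | h12
    · haveI : Fact (Nat.Prime 5) := ⟨by norm_num⟩
      obtain ⟨w, hw⟩ := exists_prime_orderOf_dvd_card (G := G) 5 (by rw [h10]; norm_num)
      exact ⟨w, by omega⟩
    · haveI : Fact (Nat.Prime 3) := ⟨by norm_num⟩
      obtain ⟨w, hw⟩ := exists_prime_orderOf_dvd_card (G := G) 3 (by rw [h12]; norm_num)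
      exact ⟨w, by omega⟩
  obtain ⟨w, hw⟩ := hw
  have hvan : ∀ r : G, ∀ u ∈ trans ((Pi.single p 1 + Pi.single q 1, 0) : Pauli G),
      commL (e r (1, 0)) u = 0 := by
    intro r u hu
    have hle : trans ((Pi.single p 1 + Pi.single q 1, 0) : Pauli G) ≤
        LinearMap.ker (commL (e r (1, 0))) := by
      unfold trans
      rw [Submodule.span_le]
      rintro _ ⟨k, rfl⟩
      simp only [SetLike.mem_coe, LinearMap.mem_ker, commL_apply]
      rw [comm_e_left]
      simp
    exact hle hu
  rcases functionals (h.trans_le hP) hfr (commL (e 1 (1, 0))) (commL (e w (1, 0)))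
    (hvan 1) (hvan w) with h1 | h1 | h1
  · have h2 := h.low (e 1 (1, 0)) ((wt_e_le _ _).trans (by norm_num)) h1
    exact h.single_fst h2 rfl
  · have h2 := h.low (e w (1, 0)) ((wt_e_le _ _).trans (by norm_num)) h1
    exact h.single_fst h2 rfl
  · have h2 := h.low' 1 w (1, 0) (1, 0) (by
      intro Q hQ
      have := h1 Q hQ
      simp only [commL_apply] at this
      rw [this]
      exact CharTwo.add_self_eq_zero _)
    have hne : (1 : G) ≠ w := by
      rintro rfl
      simp at hw
    have h3 := (h.pair h2 hne rfl).1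
    rw [inv_one, one_mul] at h3
    omega

lemma Good.XX {V : Submodule (ZMod 2) (Pauli G)} (h : Good V)
    {p q : G} (hpq : p ≠ q) (hP : (0, Pi.single p 1 + Pi.single q 1) ∈ V) : False :=
  h.swap.ZZ hpq (by simpa [Submodule.mem_comap] using hP)

lemma Good.single_snd {V : Submodule (ZMod 2) (Pauli G)} (h : Good V) {P : Pauli G} (hP : P ∈ V)
    {p : G} (hp : P.2 = Pi.single p 1) : False :=
  h.swap.single_fst (P := P.swap) (by simpa [Submodule.mem_comap] using hP) (p := p) (by simpa using hp)

lemma Good.YY {V : Submodule (ZMod 2) (Pauli G)} (h : Good V)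
    {p q : G} (hpq : p ≠ q)
    (hP : (Pi.single p 1 + Pi.single q 1, Pi.single p 1 + Pi.single q 1) ∈ V) : False := by
  obtain ⟨hord, hcard, hfr⟩ := h.pair hP hpq rfl
  have hinv : (p⁻¹ * q)⁻¹ = p⁻¹ * q := by
    rw [inv_eq_iff_mul_eq_one, ← sq]
    rw [← hord]; exact pow_orderOf_eq_one _
  have hvan1 : ∀ u ∈ trans ((Pi.single p 1 + Pi.single q 1, Pi.single p 1 + Pi.single q 1) :
      Pauli G), commL (e p (1, 1)) u = 0 := by
    intro u hu
    have hle : trans ((Pi.single p 1 + Pi.single q 1, Pi.single p 1 + Pi.single q 1) : Pauli G) ≤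
        LinearMap.ker (commL (e p (1, 1))) := by
      unfold trans
      rw [Submodule.span_le]
      rintro _ ⟨k, rfl⟩
      simp only [SetLike.mem_coe, LinearMap.mem_ker, commL_apply]
      rw [comm_e_left]
      simp only [tau_fst, tau_snd, Pi.add_apply, Pi.single_apply, mul_one]
      have e1 : (p * k⁻¹ = p) ↔ (p * k = p) := by simp
      have e2 : (p * k⁻¹ = q) ↔ (p * k = q) := by
        rw [← eq_inv_mul_iff_mul_eq, ← eq_inv_mul_iff_mul_eq, inv_eq_iff_eq_inv, hinv]
      simp only [e1, e2]
      exact CharTwo.add_self_eq_zero _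
    exact hle hu
  have hvan2 : ∀ u ∈ trans ((Pi.single p 1 + Pi.single q 1, Pi.single p 1 + Pi.single q 1) :
      Pauli G), commL (e p (1, 0) + e q (0, 1)) u = 0 := by
    intro u hu
    have hle : trans ((Pi.single p 1 + Pi.single q 1, Pi.single p 1 + Pi.single q 1) : Pauli G) ≤
        LinearMap.ker (commL (e p (1, 0) + e q (0, 1))) := by
      unfold trans
      rw [Submodule.span_le]
      rintro _ ⟨k, rfl⟩
      simp only [SetLike.mem_coe, LinearMap.mem_ker, commL_apply]
      rw [comm_add_left, comm_e_left, comm_e_left]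
      simp only [tau_fst, tau_snd, Pi.add_apply, Pi.single_apply, mul_one, mul_zero, zero_add,
        add_zero]
      have e1 : (q * k⁻¹ = p) ↔ (p * k = q) := by
        rw [mul_inv_eq_iff_eq_mul]; exact eq_comm
      have e2 : (q * k⁻¹ = q) ↔ (p * k = p) := by simp
      simp only [e1, e2]
      rw [add_comm (if p * k = q then (1 : ZMod 2) else 0)]
      exact CharTwo.add_self_eq_zero _
    exact hle hu
  rcases functionals (h.trans_le hP) hfr (commL (e p (1, 1))) (commL (e p (1, 0) + e q (0, 1)))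
    hvan1 hvan2 with h1 | h1 | h1
  · have h2 := h.low (e p (1, 1)) ((wt_e_le _ _).trans (by norm_num)) h1
    exact h.single_fst h2 rfl
  · have h2 := h.low (e p (1, 0) + e q (0, 1)) (wt_ee_le _ _ _ _) h1
    exact h.single_fst h2 (p := p) (by simp [e])
  · have h2 := h.low' p q (0, 1) (0, 1) (by
      intro Q hQ
      have := h1 Q hQ
      simp only [commL_apply, comm_add_left, comm_e_left] at this ⊢
      simp only [mul_one, mul_zero, add_zero, zero_add] at this ⊢
      have h4 := CharTwo.add_self_eq_zero (Q.2 p)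
      calc Q.1 p + Q.1 q = (Q.1 p + Q.2 p) + Q.1 q + Q.2 p + (Q.2 p + Q.2 p) - (Q.2 p + Q.2 p)
            - (Q.2 p + Q.2 p) + 0 := by ring
        _ = 0 := by
          rw [this, h4]
          have h5 := CharTwo.add_self_eq_zero (Q.1 q)
          linear_combination h4 + h5)
    exact h.XX hpq (by simpa [e] using h2)

/-- Part 2: no nonzero operator of weight at most two commutes with `V`. -/
theorem Good.no_low {V : Submodule (ZMod 2) (Pauli G)} (h : Good V) {P : Pauli G} (hne : P ≠ 0)
    (hw : wt P ≤ 2) (hc : ∀ Q ∈ V, comm P Q = 0) : False := by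
  have hP := h.low P hw hc
  rcases wt_le_two hw with ⟨p, ⟨s, t⟩, rfl⟩ | ⟨p, q, ⟨s, t⟩, ⟨s', t'⟩, hpq, rfl⟩
  · rcases z2 s with rfl | rfl
    · rcases z2 t with rfl | rfl
      · exact hne (e_zero p)
      · exact h.single_snd hP (p := p) (by simp [e])
    · exact h.single_fst hP (p := p) (by simp [e])
  · rcases z2 s with rfl | rfl <;> rcases z2 s' with rfl | rfl
    · rcases z2 t with rfl | rfl <;> rcases z2 t' with rfl | rfl
      · exact hne (by rw [e_zero, e_zero, add_zero])
      · exact h.single_snd hP (p := q) (by simp [e])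
      · exact h.single_snd hP (p := p) (by simp [e])
      · exact h.XX hpq (by simpa [e] using hP)
    · exact h.single_fst hP (p := q) (by simp [e])
    · exact h.single_fst hP (p := p) (by simp [e])
    · rcases z2 t with rfl | rfl <;> rcases z2 t' with rfl | rfl
      · exact h.ZZ hpq (by simpa [e] using hP)
      · exact h.single_snd hP (p := q) (by simp [e])
      · exact h.single_snd hP (p := p) (by simp [e])
      · exact h.YY hpq (by simpa [e] using hP)

end MirrorCode
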