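import Pool.Agent.R629.Mirror.Good

set_option linter.unusedSectionVars false

namespace MirrorCode

open Finset Module

variable {G : Type*} [CommGroup G] [Fintype G] [DecidableEq G]

/-- translation of functions -/
def L (k : G) : (G → ZMod 2) →ₗ[ZMod 2] (G → ZMod 2) where
  toFun f := fun g => f (g * k⁻¹)
  map_add' _ _ := rfl
  map_smul' _ _ := rfl

@[simp] lemma L_apply (k : G) (f : G → ZMod 2) (g : G) : L k f g = f (g * k⁻¹) := rfl

lemma L_mul (k l : G) (f : G → ZMod 2) : L (k * l) f = L k (L l f) := by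
  ext g; simp only [L_apply, mul_inv_rev, mul_assoc, mul_comm l⁻¹ k⁻¹]

@[simp] lemma L_one (f : G → ZMod 2) : L (1 : G) f = f := by ext g; simp

lemma L_comm (k l : G) (f : G → ZMod 2) : L k (L l f) = L l (L k f) := by
  rw [← L_mul, mul_comm, L_mul]

lemma add_eq_zero_iff' (f g : G → ZMod 2) : f + g = 0 ↔ f = g := by
  constructor
  · intro h
    have := congrArg (· + g) h
    simp only [zero_add, add_assoc, addself, add_zero] at this
    exact this
  · rintro rfl; exact addself _

/-- the operator `1 + k` -/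
def T (k : G) : (G → ZMod 2) →ₗ[ZMod 2] (G → ZMod 2) := LinearMap.id + L k

@[simp] lemma T_apply (k : G) (f : G → ZMod 2) : T k f = f + L k f := rfl

lemma T_eq_zero (k : G) (f : G → ZMod 2) : T k f = 0 ↔ L k f = f := by
  rw [T_apply, add_eq_zero_iff']; exact eq_comm

lemma T_L (k l : G) (f : G → ZMod 2) : T k (L l f) = L l (T k f) := by
  simp only [T_apply, map_add, L_comm k l]

lemma T_T (k l : G) (f : G → ZMod 2) : T k (T l f) = T l (T k f) := by
  simp only [T_apply, map_add, L_comm k l]; abel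

lemma T_sq {h : G} (hh : h * h = 1) (f : G → ZMod 2) : T h (T h f) = 0 := by
  simp only [T_apply, map_add, ← L_mul, hh, L_one]
  have h1 := addself f
  have h2 := addself (L h f)
  calc f + L h f + (L h f + f) = (f + f) + (L h f + L h f) := by abel
    _ = 0 := by rw [h1, h2, add_zero]

/-- invariance of a submodule under all translations -/
def Inv (U : Submodule (ZMod 2) (G → ZMod 2)) : Prop := ∀ k : G, ∀ f ∈ U, L k f ∈ U

lemma Inv.T {U : Submodule (ZMod 2) (G → ZMod 2)} (h : Inv U) (k : G) {f : G → ZMod 2}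
    (hf : f ∈ U) : T k f ∈ U := add_mem hf (h k f hf)

lemma Inv.mapT {U : Submodule (ZMod 2) (G → ZMod 2)} (h : Inv U) (k : G) :
    Inv (U.map (MirrorCode.T k)) := by
  rintro l _ ⟨f, hf, rfl⟩
  refine ⟨L l f, h l f hf, ?_⟩
  exact T_L k l f

lemma Inv.mapT_le {U : Submodule (ZMod 2) (G → ZMod 2)} (h : Inv U) (k : G) :
    U.map (MirrorCode.T k) ≤ U := by
  rintro _ ⟨f, hf, rfl⟩
  exact h.T k hf

lemma Inv.inf {U V : Submodule (ZMod 2) (G → ZMod 2)} (h : Inv U) (h' : Inv V) : Inv (U ⊓ V) :=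
  fun k f hf => ⟨h k f hf.1, h' k f hf.2⟩

lemma Inv_kerT (k : G) : Inv (LinearMap.ker (T k)) := by
  intro l f hf
  rw [LinearMap.mem_ker] at hf ⊢
  rw [T_L, hf, map_zero]

/-- rank-nullity on a submodule -/
lemma rank_nullity (U : Submodule (ZMod 2) (G → ZMod 2))
    (f : (G → ZMod 2) →ₗ[ZMod 2] (G → ZMod 2)) :
    finrank (ZMod 2) (U.map f) + finrank (ZMod 2) (U ⊓ LinearMap.ker f : Submodule _ _) =
      finrank (ZMod 2) U := by
  have h1 := LinearMap.finrank_range_add_finrank_ker (f.domRestrict U)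
  have h2 : LinearMap.range (f.domRestrict U) = U.map f := by
    ext y; constructor
    · rintro ⟨⟨x, hx⟩, rfl⟩; exact ⟨x, hx, rfl⟩
    · rintro ⟨x, hx, rfl⟩; exact ⟨⟨x, hx⟩, rfl⟩
  have h3 : (LinearMap.ker (f.domRestrict U)).map U.subtype = U ⊓ LinearMap.ker f := by
    ext y; constructor
    · rintro ⟨⟨x, hx⟩, hx', rfl⟩; exact ⟨hx, hx'⟩
    · rintro ⟨hx, hx'⟩; exact ⟨⟨y, hx⟩, hx', rfl⟩
  rw [← h1, h2, ← h3]
  rw [Submodule.finrank_map_subtype_eq]

lemma two_mul_finrank_mapT {U : Submodule (ZMod 2) (G → ZMod 2)} (h : Inv U) {k : G}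
    (hk : k * k = 1) :
    2 * finrank (ZMod 2) (U.map (T k)) ≤ finrank (ZMod 2) U := by
  have h1 := rank_nullity U (T k)
  have h2 : U.map (T k) ≤ U ⊓ LinearMap.ker (T k) := by
    rintro _ ⟨f, hf, rfl⟩
    exact ⟨h.T k hf, LinearMap.mem_ker.2 (T_sq hk f)⟩
  have h3 := Submodule.finrank_mono h2
  omega

/-- in a space of dimension at most one, nonzero vectors are equal -/
lemma eq_of_finrank_le_one {U : Submodule (ZMod 2) (G → ZMod 2)} (h : finrank (ZMod 2) U ≤ 1)
    {x y : G → ZMod 2} (hx : x ∈ U) (hy : y ∈ U) (hx0 : x ≠ 0) (hy0 : y ≠ 0) : x = y := by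
  obtain ⟨v, hv⟩ := finrank_le_one_iff.1 h
  obtain ⟨c, hc⟩ := hv ⟨x, hx⟩
  obtain ⟨c', hc'⟩ := hv ⟨y, hy⟩
  have hc1 : c = 1 := by
    rcases z2 c with rfl | rfl
    · exfalso; apply hx0
      have := congrArg Subtype.val hc
      simpa using this.symm
    · rfl
  have hc2 : c' = 1 := by
    rcases z2 c' with rfl | rfl
    · exfalso; apply hy0
      have := congrArg Subtype.val hc'
      simpa using this.symm
    · rfl
  subst hc1; subst hc2
  rw [one_smul] at hc hc'
  have h1 := congrArg Subtype.val hc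
  have h2 := congrArg Subtype.val hc'
  simp only at h1 h2
  rw [← h1, ← h2]

/-- counting fixed points -/
lemma fix_count {p : ℕ} [hp : Fact p.Prime] {c : G} (hc : c ^ p = 1)
    {U : Submodule (ZMod 2) (G → ZMod 2)} (hU : Inv U) :
    2 ^ finrank (ZMod 2) U ≡
      2 ^ finrank (ZMod 2) (U ⊓ LinearMap.ker (T c) : Submodule _ _) [MOD p] := by
  classical
  let f : Function.End U := fun x => ⟨L c x.1, hU c x.1 x.2⟩
  have hpow : ∀ n : ℕ, ∀ x : U, ((f ^ n) x).1 = L (c ^ n) x.1 := by
    intro n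
    induction n with
    | zero => intro x; rw [pow_zero, pow_zero, L_one]; rfl
    | succ n ih =>
      intro x
      rw [pow_succ, pow_succ, L_mul]
      show ((f ^ n) (f x)).1 = _
      rw [ih]
  have hf : f ^ p ^ 1 = 1 := by
    rw [pow_one]
    funext x
    apply Subtype.ext
    rw [hpow, hc, L_one]
    rfl
  have : Fintype U := Fintype.ofFinite _
  have : Fintype (U ⊓ LinearMap.ker (T c) : Submodule (ZMod 2) (G → ZMod 2)) :=
    Fintype.ofFinite _
  have h1 := Equiv.Perm.card_fixedPoints_modEq (p := p) (n := 1) hf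
  have h2 : Fintype.card U = 2 ^ finrank (ZMod 2) U := by
    rw [Module.card_eq_pow_finrank (K := ZMod 2), ZMod.card]
  have h3 : Fintype.card f.fixedPoints =
      2 ^ finrank (ZMod 2) (U ⊓ LinearMap.ker (T c) : Submodule _ _) := by
    have h4 : Fintype.card (U ⊓ LinearMap.ker (T c) : Submodule (ZMod 2) (G → ZMod 2)) =
        2 ^ finrank (ZMod 2) (U ⊓ LinearMap.ker (T c) : Submodule _ _) := by
      rw [Module.card_eq_pow_finrank (K := ZMod 2), ZMod.card]
    rw [← h4]
    refine Fintype.card_congr ⟨fun x => ⟨x.1.1, x.1.2, ?_⟩, fun x => ⟨⟨x.1, x.2.1⟩, ?_⟩,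
      fun x => rfl, fun x => rfl⟩
    · refine LinearMap.mem_ker.2 ((T_eq_zero _ _).2 ?_)
      have := x.2
      exact congrArg Subtype.val (this : f x.1 = x.1)
    · show f _ = _
      apply Subtype.ext
      exact (T_eq_zero c x.1).1 x.2.2
  rw [h2] at h1
  refine h1.trans ?_
  rw [← h3]

/-- the kernel of `1 + w + w²` -/
def kerE (w : G) : Submodule (ZMod 2) (G → ZMod 2) :=
  LinearMap.ker (LinearMap.id + L w + L (w * w) : (G → ZMod 2) →ₗ[ZMod 2] (G → ZMod 2))

lemma mem_kerE {w : G} {f : G → ZMod 2} : f ∈ kerE w ↔ f + L w f + L w (L w f) = 0 := by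
  rw [← L_mul]
  exact LinearMap.mem_ker

lemma Inv_kerE (w : G) : Inv (kerE w) := by
  intro l f hf
  rw [mem_kerE] at hf ⊢
  rw [L_comm w l, L_comm w l, ← map_add, ← map_add, hf, map_zero]

lemma three (f : G → ZMod 2) : f + f + f = f := by rw [addself, zero_add]

lemma kerE_fixed {w : G} {f : G → ZMod 2} (hf : f ∈ kerE w) (hw : L w f = f) : f = 0 := by
  rw [mem_kerE, hw, hw, three] at hf
  exact hf

/-- invariant subspaces of the kernel of `1 + w + w²` have even dimension -/
lemma even_finrank {w : G} (hw : w ^ 3 = 1) {U : Submodule (ZMod 2) (G → ZMod 2)} (hU : Inv U)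
    (hE : U ≤ kerE w) : Even (finrank (ZMod 2) U) := by
  have : Fact (Nat.Prime 3) := ⟨by norm_num⟩
  have h1 := fix_count hw hU
  have h2 : (U ⊓ LinearMap.ker (T w) : Submodule _ _) = ⊥ := by
    rw [eq_bot_iff]
    rintro f ⟨hf, hf'⟩
    rw [Submodule.mem_bot]
    exact kerE_fixed (hE hf) ((T_eq_zero _ _).1 (LinearMap.mem_ker.1 hf'))
  rw [h2, finrank_bot, pow_zero] at h1
  by_contra hodd
  rw [Nat.not_even_iff_odd] at hodd
  obtain ⟨m, hm⟩ := hodd
  rw [hm, pow_succ, pow_mul] at h1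
  have h3 : (2 ^ 2) ^ m * 2 ≡ 1 ^ m * 2 [MOD 3] := by
    refine Nat.ModEq.mul_right _ (Nat.ModEq.pow m ?_)
    decide
  have h4 := h3.symm.trans h1
  rw [one_pow] at h4
  exact absurd h4 (by decide)

lemma four_le {w : G} (hw : w ^ 3 = 1) {U : Submodule (ZMod 2) (G → ZMod 2)} (hU : Inv U)
    (hE : U ≤ kerE w) {x y : G → ZMod 2} (hx : x ∈ U) (hy : y ∈ U) (hx0 : x ≠ 0) (hy0 : y ≠ 0)
    (h1 : y ≠ x) (h2 : y ≠ L w x) (h3 : y ≠ L w (L w x)) : 4 ≤ finrank (ZMod 2) U := by
  have hev := even_finrank hw hU hE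
  by_contra hlt
  have hli : LinearIndependent (ZMod 2) ![x, L w x] := by
    rw [LinearIndependent.pair_iff]
    intro s t hst
    have hne : L w x ≠ x := fun h => hx0 (kerE_fixed (hE hx) h)
    have hw0 : L w x ≠ 0 := by
      intro h
      apply hx0
      have := congrArg (L w) (congrArg (L w) h)
      rw [map_zero, map_zero, ← L_mul, ← L_mul] at this
      have hw3 : w * w * w = 1 := by rw [← hw, pow_succ, pow_two]
      rw [hw3, L_one] at this
      exact this
    rcases z2 s with rfl | rfl <;> rcases z2 t with rfl | rfl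
    · exact ⟨rfl, rfl⟩
    · exact absurd (by simpa using hst) hw0
    · exact absurd (by simpa using hst) hx0
    · exfalso
      apply hne
      rw [one_smul, one_smul, add_eq_zero_iff'] at hst
      exact hst.symm
  have hspan : Submodule.span (ZMod 2) (Set.range ![x, L w x]) = U := by
    refine Submodule.eq_of_le_of_finrank_le ?_ ?_
    · rw [Submodule.span_le]
      rintro _ ⟨i, rfl⟩
      fin_cases i
      · exact hx
      · exact hU w x hx
    · rw [finrank_span_eq_card hli]
      simp only [Fintype.card_fin]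
      obtain ⟨m, hm⟩ := hev
      omega
  have hy' := hy
  rw [← hspan] at hy'
  rw [Matrix.range_cons, Matrix.range_cons, Matrix.range_empty, Set.union_empty,
    Set.singleton_union, Submodule.mem_span_pair] at hy'
  obtain ⟨s, t, hst⟩ := hy'
  rcases z2 s with rfl | rfl <;> rcases z2 t with rfl | rfl
  · exact hy0 (by simpa using hst.symm)
  · exact h2 (by simpa using hst.symm)
  · exact h1 (by simpa using hst.symm)
  · apply h3
    rw [one_smul, one_smul] at hst
    have := mem_kerE.1 (hE hx)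
    rw [hst, add_eq_zero_iff'] at this
    exact this

/-- the syndrome of `Z^{s.1} X^{s.2}` on qubit `p` -/
def syn (α β : G → ZMod 2) (p : G) (s : ZMod 2 × ZMod 2) : G → ZMod 2 :=
  s.1 • L p⁻¹ β + s.2 • L p α

/-- the situation of a nondegenerate abelian mirror code with `n ≤ 12`, `k ≥ 5`, `d ≥ 3` -/
structure Syn (W : Submodule (ZMod 2) (G → ZMod 2)) (α β : G → ZMod 2) : Prop where
  inv : Inv W
  ha : α ∈ W
  hb : β ∈ W
  dim : finrank (ZMod 2) W + 5 ≤ Fintype.card G
  small : Fintype.card G ≤ 12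
  nd : ∀ p q s t, e p s + e q t ≠ (0 : Pauli G) → syn α β p s + syn α β q t ≠ 0

variable {W : Submodule (ZMod 2) (G → ZMod 2)} {α β : G → ZMod 2}

lemma e_ne {p : G} {s : ZMod 2 × ZMod 2} (hs : s ≠ 0) {q : G} (hpq : p ≠ q)
    (t : ZMod 2 × ZMod 2) : e p s + e q t ≠ (0 : Pauli G) := by
  intro h
  apply hs
  have h1 := congrFun (congrArg Prod.fst h) p
  have h2 := congrFun (congrArg Prod.snd h) p
  simp [e, Pi.single_eq_of_ne hpq] at h1 h2
  exact Prod.ext h1 h2

lemma e_ne' {p : G} {s t : ZMod 2 × ZMod 2} (hs : s + t ≠ 0) :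
    e p s + e p t ≠ (0 : Pauli G) := by
  intro h
  apply hs
  rw [← e_add] at h
  have h1 := congrFun (congrArg Prod.fst h) p
  have h2 := congrFun (congrArg Prod.snd h) p
  simp only [e, Pi.single_eq_same] at h1 h2
  exact Prod.ext h1 h2

lemma Syn.Ta (h : Syn W α β) {k : G} (hk : k ≠ 1) : T k α ≠ 0 := by
  have h1 := h.nd 1 k (0, 1) (0, 1) (e_ne (by decide) (Ne.symm hk) _)
  simpa [syn] using h1

lemma Syn.Tb (h : Syn W α β) {k : G} (hk : k ≠ 1) : T k β ≠ 0 := by
  have h1 := h.nd 1 k⁻¹ (1, 0) (1, 0) (e_ne (by decide) (by simpa [eq_comm] using hk) _)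
  simpa [syn] using h1

lemma Syn.g (h : Syn W α β) {p q : G} (hpq : p ≠ q) :
    L p α + L p⁻¹ β + (L q α + L q⁻¹ β) ≠ 0 := by
  have h1 := h.nd p q (1, 1) (1, 1) (e_ne (by decide) hpq _)
  simp only [syn, one_smul] at h1
  rwa [add_comm (L p⁻¹ β), add_comm (L q⁻¹ β)] at h1

lemma Syn.Tg (h : Syn W α β) {k : G} (hk : k * k = 1) (hk1 : k ≠ 1) (q : G) :
    T k (L q α + L q⁻¹ β) ≠ 0 := by
  have hinv : k⁻¹ = k := inv_eq_of_mul_eq_one_left hk
  have h1 := h.g (p := q) (q := k * q) (by
    intro hcon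
    apply hk1
    exact (mul_eq_right.1 hcon.symm))
  rw [T_apply]
  rw [mul_inv_rev, hinv, mul_comm q⁻¹ k, L_mul, L_mul, ← map_add] at h1
  exact h1

/-- pigeonhole -/
lemma Syn.pigeon (h : Syn W α β) : 3 * Fintype.card G + 1 ≤ 2 ^ finrank (ZMod 2) W := by
  classical
  let φ : Option (G × {s : ZMod 2 × ZMod 2 // s ≠ 0}) → W := fun o =>
    match o with
    | none => 0
    | some x => ⟨syn α β x.1 x.2.1, add_mem (Submodule.smul_mem _ _ (h.inv _ _ h.hb))
        (Submodule.smul_mem _ _ (h.inv _ _ h.ha))⟩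
  have hsyn0 : ∀ p, syn α β p 0 = 0 := by intro p; simp [syn]
  have hinj : Function.Injective φ := by
    rintro (_ | ⟨p, s, hs⟩) (_ | ⟨q, t, ht⟩) hxy
    · rfl
    · exfalso
      have h1 : syn α β q t = 0 := (congrArg Subtype.val hxy).symm
      refine h.nd q q t 0 (e_ne' (by simpa using ht)) ?_
      rw [h1, hsyn0, add_zero]
    · exfalso
      have h1 : syn α β p s = 0 := (congrArg Subtype.val hxy)
      refine h.nd p p s 0 (e_ne' (by simpa using hs)) ?_
      rw [h1, hsyn0, add_zero]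
    · have h1 : syn α β p s = syn α β q t := congrArg Subtype.val hxy
      by_cases hpq : p = q
      · subst hpq
        by_cases hst : s = t
        · subst hst; rfl
        · exfalso
          refine h.nd p p s t (e_ne' ?_) ?_
          · intro hcon
            apply hst
            have h2 : t + t = 0 := Prod.ext (CharTwo.add_self_eq_zero _) (CharTwo.add_self_eq_zero _)
            calc s = s + (t + t) := by rw [h2, add_zero]
              _ = (s + t) + t := by abel
              _ = t := by rw [hcon, zero_add]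
          · rw [h1]; exact addself _
      · exfalso
        refine h.nd p q s t (e_ne hs hpq _) ?_
        rw [h1]; exact addself _
  have : Fintype W := Fintype.ofFinite _
  have h1 := Fintype.card_le_of_injective φ hinj
  rw [Module.card_eq_pow_finrank (K := ZMod 2) (V := W), ZMod.card, Fintype.card_option,
    Fintype.card_prod] at h1
  have h2 : Fintype.card {s : ZMod 2 × ZMod 2 // s ≠ 0} = 3 := by decide
  rw [h2] at h1
  omega

lemma Syn.not_le_nine (h : Syn W α β) (hn : Fintype.card G ≤ 9) : False := by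
  have h1 := h.pigeon
  have h2 := h.dim
  have h3 : 2 ^ finrank (ZMod 2) W ≤ 2 ^ (Fintype.card G - 5) :=
    Nat.pow_le_pow_right (by norm_num) (by omega)
  have h4 : 5 ≤ Fintype.card G := by omega
  interval_cases hc : Fintype.card G <;> norm_num at h3 <;> omega

lemma two_pow_mod_eleven : ∀ d ≤ 6, ∀ f ≤ 6, f ≤ d → 2 ^ d ≡ 2 ^ f [MOD 11] → d = f := by decide

lemma two_pow_mod_five : ∀ d ≤ 5, ∀ f ≤ 5, f ≤ d → 2 ^ d ≡ 2 ^ f [MOD 5] → d = f ∨ f ≤ 1 := by
  decide

lemma two_pow_mod_five' : ∀ d ≤ 2, ∀ f ≤ 2, f ≤ d → 2 ^ d ≡ 2 ^ f [MOD 5] → d = f := by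
  decide

lemma Syn.not_eleven (h : Syn W α β) (hn : Fintype.card G = 11) : False := by
  have : Fact (Nat.Prime 11) := ⟨by norm_num⟩
  obtain ⟨c, hc⟩ := exists_prime_orderOf_dvd_card (G := G) 11 (by rw [hn])
  have hcp : c ^ 11 = 1 := by rw [← hc]; exact pow_orderOf_eq_one c
  have h1 := fix_count hcp h.inv
  have hle : (W ⊓ LinearMap.ker (T c) : Submodule _ _) ≤ W := inf_le_left
  have h2 := Submodule.finrank_mono hle
  have h3 := h.dim
  have h4 := two_pow_mod_eleven _ (by omega) _ (by omega) h2 h1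
  have h5 := Submodule.eq_of_le_of_finrank_eq hle h4.symm
  have h6 := h.ha
  rw [← h5] at h6
  refine h.Ta ?_ (LinearMap.mem_ker.1 h6.2)
  rintro rfl
  simp at hc

lemma Syn.not_ten (h : Syn W α β) (hn : Fintype.card G = 10) : False := by
  have : Fact (Nat.Prime 5) := ⟨by norm_num⟩
  have : Fact (Nat.Prime 2) := ⟨by norm_num⟩
  obtain ⟨c, hc⟩ := exists_prime_orderOf_dvd_card (G := G) 5 (by rw [hn]; norm_num)
  obtain ⟨k, hk⟩ := exists_prime_orderOf_dvd_card (G := G) 2 (by rw [hn]; norm_num)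
  have hcp : c ^ 5 = 1 := by rw [← hc]; exact pow_orderOf_eq_one c
  have hkk : k * k = 1 := by rw [← sq, ← hk]; exact pow_orderOf_eq_one k
  have hc1 : c ≠ 1 := by rintro rfl; simp at hc
  have hk1 : k ≠ 1 := by rintro rfl; simp at hk
  have h1 := fix_count hcp h.inv
  have hle : (W ⊓ LinearMap.ker (T c) : Submodule _ _) ≤ W := inf_le_left
  have h2 := Submodule.finrank_mono hle
  have h3 := h.dim
  rcases two_pow_mod_five _ (by omega) _ (by omega) h2 h1 with h4 | h4
  · have h5 := Submodule.eq_of_le_of_finrank_eq hle h4.symm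
    have h6 := h.ha
    rw [← h5] at h6
    exact h.Ta hc1 (LinearMap.mem_ker.1 h6.2)
  · -- the image of `1 + k`
    have hU := h.inv.mapT k
    have h5 := two_mul_finrank_mapT h.inv hkk
    have h6 := fix_count hcp hU
    have hle' : (W.map (T k) ⊓ LinearMap.ker (T c) : Submodule _ _) ≤ W.map (T k) := inf_le_left
    have h7 := Submodule.finrank_mono hle'
    have h8 := two_pow_mod_five' _ (by omega) _ (by omega) h7 h6
    have h9 := Submodule.eq_of_le_of_finrank_eq hle' h8.symm
    have h10 : W.map (T k) ≤ W ⊓ LinearMap.ker (T c) := by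
      rw [← h9]
      exact inf_le_inf_right _ (h.inv.mapT_le k)
    have h11 := (Submodule.finrank_mono h10).trans h4
    have h12 := eq_of_finrank_le_one h11 (Submodule.mem_map_of_mem h.ha)
      (Submodule.mem_map_of_mem h.hb) (h.Ta hk1) (h.Tb hk1)
    have h13 := h.Tg hkk hk1 1
    apply h13
    rw [inv_one, L_one, L_one, map_add, h12]
    exact addself _

end MirrorCode
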