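import Pool.Agent.R629.Mirror.Syn

set_option linter.unusedSectionVars false

namespace MirrorCode

open Finset Module

variable {G : Type*} [CommGroup G] [Fintype G] [DecidableEq G]
variable {W : Submodule (ZMod 2) (G → ZMod 2)} {α β : G → ZMod 2}

/-- the component in the kernel of `1 + w + w²` -/
def c1 (w : G) : (G → ZMod 2) →ₗ[ZMod 2] (G → ZMod 2) := L w + L (w * w)

/-- the component fixed by `w` -/
def c0 (w : G) : (G → ZMod 2) →ₗ[ZMod 2] (G → ZMod 2) := LinearMap.id + L w + L (w * w)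

lemma c1_apply (w : G) (f : G → ZMod 2) : c1 w f = L w f + L (w * w) f := rfl
lemma c0_apply (w : G) (f : G → ZMod 2) : c0 w f = f + L w f + L (w * w) f := rfl

lemma c_add (w : G) (f : G → ZMod 2) : c0 w f + c1 w f = f := by
  rw [c1_apply, c0_apply]
  have h1 := addself (L w f)
  have h2 := addself (L (w * w) f)
  calc _ = f + (L w f + L w f) + (L (w * w) f + L (w * w) f) := by abel
    _ = f := by rw [h1, h2, add_zero, add_zero]

lemma c0_L (w k : G) (f : G → ZMod 2) : c0 w (L k f) = L k (c0 w f) := by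
  simp only [c0_apply, map_add, L_comm w k, L_comm (w * w) k]

lemma c1_L (w k : G) (f : G → ZMod 2) : c1 w (L k f) = L k (c1 w f) := by
  simp only [c1_apply, map_add, L_comm w k, L_comm (w * w) k]

lemma c0_T (w k : G) (f : G → ZMod 2) : c0 w (T k f) = T k (c0 w f) := by
  simp only [T_apply, map_add, c0_L]

lemma c1_T (w k : G) (f : G → ZMod 2) : c1 w (T k f) = T k (c1 w f) := by
  simp only [T_apply, map_add, c1_L]

lemma c0_fixed {w : G} (hw : w * w * w = 1) (f : G → ZMod 2) : L w (c0 w f) = c0 w f := by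
  rw [c0_apply, map_add, map_add, ← L_mul, ← L_mul, ← mul_assoc, hw, L_one]
  abel

lemma c1_mem {w : G} (hw : w * w * w = 1) (f : G → ZMod 2) : c1 w f ∈ kerE w := by
  rw [mem_kerE, c1_apply]
  simp only [map_add, ← L_mul, ← mul_assoc, hw, L_one]
  have h1 := addself (L w f)
  have h2 := addself (L (w * w) f)
  have h3 := addself f
  calc _ = (L w f + L w f) + (L (w * w) f + L (w * w) f) + (f + f) := by abel
    _ = 0 := by rw [h1, h2, h3]; simp

/-- fixed part and the part in `kerE` -/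
def W0 (W : Submodule (ZMod 2) (G → ZMod 2)) (w : G) : Submodule (ZMod 2) (G → ZMod 2) :=
  W ⊓ LinearMap.ker (T w)
def W1 (W : Submodule (ZMod 2) (G → ZMod 2)) (w : G) : Submodule (ZMod 2) (G → ZMod 2) :=
  W ⊓ kerE w

lemma Inv_W0 (hW : Inv W) (w : G) : Inv (W0 W w) := hW.inf (Inv_kerT w)
lemma Inv_W1 (hW : Inv W) (w : G) : Inv (W1 W w) := hW.inf (Inv_kerE w)

lemma c0_mem (hW : Inv W) {w : G} (hw : w * w * w = 1) {f : G → ZMod 2} (hf : f ∈ W) :
    c0 w f ∈ W0 W w := by
  refine ⟨?_, LinearMap.mem_ker.2 ((T_eq_zero _ _).2 (c0_fixed hw f))⟩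
  rw [c0_apply]
  exact add_mem (add_mem hf (hW _ _ hf)) (hW _ _ hf)

lemma c1_mem' (hW : Inv W) {w : G} (hw : w * w * w = 1) {f : G → ZMod 2} (hf : f ∈ W) :
    c1 w f ∈ W1 W w := by
  refine ⟨?_, c1_mem hw f⟩
  rw [c1_apply]
  exact add_mem (hW _ _ hf) (hW _ _ hf)

lemma dims (W : Submodule (ZMod 2) (G → ZMod 2)) (w : G) :
    finrank (ZMod 2) (W0 W w) + finrank (ZMod 2) (W1 W w) ≤ finrank (ZMod 2) W := by
  have h1 := Submodule.finrank_sup_add_finrank_inf_eq (W0 W w) (W1 W w)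
  have h2 : W0 W w ⊓ W1 W w = ⊥ := by
    rw [eq_bot_iff]
    rintro f ⟨hf, hf'⟩
    rw [Submodule.mem_bot]
    exact kerE_fixed hf'.2 ((T_eq_zero _ _).1 (LinearMap.mem_ker.1 hf.2))
  rw [h2, finrank_bot, add_zero] at h1
  rw [← h1]
  exact Submodule.finrank_mono (sup_le inf_le_left inf_le_left)

/-- four independent vectors from the pair condition -/
lemma four_le' {w : G} (hw : w * w * w = 1) {U : Submodule (ZMod 2) (G → ZMod 2)} (hU : Inv U)
    (hE : U ≤ kerE w) {x y : G → ZMod 2} (hx : x ∈ U) (hy : y ∈ U) (hx0 : x ≠ 0) (hy0 : y ≠ 0)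
    (h : ∀ q, L q x + L q⁻¹ y ≠ 0) : 4 ≤ finrank (ZMod 2) U := by
  have hw3 : w ^ 3 = 1 := by rw [pow_succ, pow_two]; exact hw
  have hwi : w⁻¹ = w * w := inv_eq_of_mul_eq_one_left hw
  have hwwi : (w * w)⁻¹ = w := by rw [← hwi, inv_inv]
  refine four_le hw3 hU hE hx hy hx0 hy0 ?_ ?_ ?_
  · rintro rfl
    apply h 1
    rw [inv_one, L_one]; exact addself _
  · rintro rfl
    apply h (w * w)
    rw [hwwi, ← L_mul]; exact addself _
  · rintro rfl
    apply h w
    rw [hwi, ← L_mul, ← L_mul]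
    have h4 : w * w * w * w = w := by rw [hw, one_mul]
    rw [h4]
    exact addself _

section main
variable (h : Syn W α β) {w : G} (hw : w * w * w = 1) (hw1 : w ≠ 1)
include h hw hw1

lemma w_ne_ww : w ≠ w * w := by
  intro hcon
  exact hw1 (mul_eq_left.1 hcon.symm)

lemma c1a_ne : c1 w α ≠ 0 := by
  intro hcon
  rw [c1_apply, L_mul, ← map_add] at hcon
  apply h.Ta hw1
  have h1 := congrArg (L (w * w)) hcon
  rw [map_zero, ← L_mul, hw, L_one] at h1
  exact h1

lemma c1b_ne : c1 w β ≠ 0 := by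
  intro hcon
  rw [c1_apply, L_mul, ← map_add] at hcon
  apply h.Tb hw1
  have h1 := congrArg (L (w * w)) hcon
  rw [map_zero, ← L_mul, hw, L_one] at h1
  exact h1

lemma c1_pair (q : G) : L q (c1 w α) + L q⁻¹ (c1 w β) ≠ 0 := by
  have h1 := h.g (p := q * w) (q := q * (w * w)) (by
    intro hcon
    exact w_ne_ww h hw hw1 (mul_left_cancel hcon))
  have hwi : w⁻¹ = w * w := inv_eq_of_mul_eq_one_left hw
  have hwwi : (w * w)⁻¹ = w := by rw [← hwi, inv_inv]
  intro hcon
  apply h1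
  rw [mul_inv_rev, mul_inv_rev, hwi, hwwi, mul_comm (w * w) q⁻¹, mul_comm w q⁻¹]
  rw [L_mul q w, L_mul q⁻¹ (w * w), L_mul q (w * w), L_mul q⁻¹ w]
  rw [c1_apply, c1_apply, map_add, map_add] at hcon
  rw [← hcon]
  abel

lemma four_le_W1 : 4 ≤ finrank (ZMod 2) (W1 W w) :=
  four_le' hw (Inv_W1 h.inv w) inf_le_right (c1_mem' h.inv hw h.ha) (c1_mem' h.inv hw h.hb)
    (c1a_ne h hw hw1) (c1b_ne h hw hw1) (c1_pair h hw hw1)

lemma fin_le : finrank (ZMod 2) W ≤ 7 := by
  have := h.dim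
  have := h.small
  omega

/-- Claim B -/
lemma claimB {k : G} (hk : k * k = 1) (hk1 : k ≠ 1) :
    1 ≤ finrank (ZMod 2) ((W0 W w).map (T k)) := by
  by_contra hcon
  have h0 : finrank (ZMod 2) ((W0 W w).map (T k)) = 0 := by omega
  rw [Submodule.finrank_eq_zero, eq_bot_iff] at h0
  have hz : ∀ f ∈ W, T k (c0 w f) = 0 := by
    intro f hf
    have h1 := h0 (Submodule.mem_map_of_mem (f := T k) (c0_mem h.inv hw hf))
    rwa [Submodule.mem_bot] at h1
  have hz' : ∀ f ∈ W, T k (c1 w f) = T k f := by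
    intro f hf
    conv_rhs => rw [← c_add w f, map_add, hz f hf, zero_add]
  have h1 := four_le' hw ((Inv_W1 h.inv w).mapT k)
    (((Inv_W1 h.inv w).mapT_le k).trans inf_le_right)
    (Submodule.mem_map_of_mem (f := T k) (c1_mem' h.inv hw h.ha))
    (Submodule.mem_map_of_mem (f := T k) (c1_mem' h.inv hw h.hb))
    (by rw [hz' _ h.ha]; exact h.Ta hk1) (by rw [hz' _ h.hb]; exact h.Tb hk1)
    (by
      intro q
      rw [hz' _ h.ha, hz' _ h.hb, ← T_L, ← T_L, ← map_add]
      exact h.Tg hk hk1 q)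
  have h2 := two_mul_finrank_mapT (Inv_W1 h.inv w) hk
  have h3 := dims W w
  have h4 := fin_le h hw hw1
  omega

lemma dims1 (hex : ∃ k : G, k * k = 1 ∧ k ≠ 1) :
    finrank (ZMod 2) (W1 W w) = 4 ∧ finrank (ZMod 2) (W0 W w) ≤ 3 := by
  obtain ⟨k, hk, hk1⟩ := hex
  have hw3 : w ^ 3 = 1 := by rw [pow_succ, pow_two]; exact hw
  have h1 := claimB h hw hw1 hk hk1
  have h2 := two_mul_finrank_mapT (Inv_W0 h.inv w) hk
  have h3 := dims W w
  have h4 := fin_le h hw hw1
  have h5 := four_le_W1 h hw hw1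
  obtain ⟨m, hm⟩ := even_finrank hw3 (Inv_W1 h.inv w) inf_le_right
  omega

/-- Claim C -/
lemma claimC {k : G} (hk : k * k = 1) (hk1 : k ≠ 1) :
    finrank (ZMod 2) ((W1 W w).map (T k)) = 2 := by
  have hw3 : w ^ 3 = 1 := by rw [pow_succ, pow_two]; exact hw
  have hd := dims1 h hw hw1 ⟨k, hk, hk1⟩
  have h2 := two_mul_finrank_mapT (Inv_W1 h.inv w) hk
  have hev := even_finrank hw3 ((Inv_W1 h.inv w).mapT k)
    (((Inv_W1 h.inv w).mapT_le k).trans inf_le_right)
  obtain ⟨m, hm⟩ := hev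
  by_contra hcon
  have h0 : finrank (ZMod 2) ((W1 W w).map (T k)) = 0 := by omega
  rw [Submodule.finrank_eq_zero, eq_bot_iff] at h0
  have hz : ∀ f ∈ W, T k (c1 w f) = 0 := by
    intro f hf
    have h1 := h0 (Submodule.mem_map_of_mem (f := T k) (c1_mem' h.inv hw hf))
    rwa [Submodule.mem_bot] at h1
  have hz' : ∀ f ∈ W, T k (c0 w f) = T k f := by
    intro f hf
    conv_rhs => rw [← c_add w f, map_add, hz f hf, add_zero]
  have h3 := two_mul_finrank_mapT (Inv_W0 h.inv w) hk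
  have h4 := eq_of_finrank_le_one (U := (W0 W w).map (T k)) (by omega)
    (Submodule.mem_map_of_mem (f := T k) (c0_mem h.inv hw h.ha))
    (Submodule.mem_map_of_mem (f := T k) (c0_mem h.inv hw h.hb))
    (by rw [hz' _ h.ha]; exact h.Ta hk1) (by rw [hz' _ h.hb]; exact h.Tb hk1)
  rw [hz' _ h.ha, hz' _ h.hb] at h4
  have h5 := h.Tg hk hk1 1
  apply h5
  rw [inv_one, L_one, L_one, map_add, h4]
  exact addself _

/-- no element of order four -/
lemma no_four {g : G} (hg : g * g * (g * g) = 1) (hg2 : g * g ≠ 1) : False := by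
  have hw3 : w ^ 3 = 1 := by rw [pow_succ, pow_two]; exact hw
  have hC := claimC h hw hw1 hg hg2
  have hd := dims1 h hw hw1 ⟨g * g, hg, hg2⟩
  -- `(1+g)^2 = 1 + g^2`
  have hsq : ∀ f, T g (T g f) = T (g * g) f := by
    intro f
    simp only [T_apply, map_add, L_mul]
    have h1 := addself (L g f)
    calc f + L g f + (L g f + L g (L g f)) = (L g f + L g f) + (f + L g (L g f)) := by abel
      _ = _ := by rw [h1, zero_add]
  set U := (W1 W w).map (T g) with hU
  have hmap : U.map (T g) = (W1 W w).map (T (g * g)) := by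
    ext y; constructor
    · rintro ⟨_, ⟨x, hx, rfl⟩, rfl⟩; exact ⟨x, hx, (hsq x).symm⟩
    · rintro ⟨x, hx, rfl⟩; exact ⟨_, ⟨x, hx, rfl⟩, hsq x⟩
  have hUinv : Inv U := (Inv_W1 h.inv w).mapT g
  have hUle : U ≤ W1 W w := (Inv_W1 h.inv w).mapT_le g
  have hkill : ∀ f, T (g * g) (T (g * g) f) = 0 := fun f => T_sq hg f
  have hne4 : finrank (ZMod 2) U ≠ 4 := by
    intro h4
    have hUW : U = W1 W w := Submodule.eq_of_le_of_finrank_eq hUle (by rw [h4, hd.1])
    rw [hUW, ← hU, hUW] at hmap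
    have h1 : (W1 W w).map (T (g * g)) = ⊥ := by
      rw [eq_bot_iff]
      rintro _ ⟨x, hx, rfl⟩
      rw [Submodule.mem_bot]
      rw [hmap] at hx
      obtain ⟨y, hy, rfl⟩ := hx
      exact hkill y
    rw [h1, finrank_bot] at hC
    omega
  obtain ⟨m, hm⟩ := even_finrank hw3 hUinv (hUle.trans inf_le_right)
  have hle := Submodule.finrank_mono hUle
  have h2 : U.map (T g) = U := by
    refine Submodule.eq_of_le_of_finrank_le (hUinv.mapT_le g) ?_
    rw [hmap, hC]
    omega
  have h3 : U = (W1 W w).map (T (g * g)) := by rw [← hmap, h2]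
  have h4 : U = ⊥ := by
    rw [eq_bot_iff]
    intro x hx
    rw [← h2] at hx
    obtain ⟨y, hy, rfl⟩ := hx
    rw [SetLike.mem_coe, ← h2] at hy
    obtain ⟨z, hz, rfl⟩ := hy
    rw [SetLike.mem_coe, h3] at hz
    obtain ⟨t, ht, rfl⟩ := hz
    rw [hsq, Submodule.mem_bot]
    exact hkill t
  rw [← h3, h4, finrank_bot] at hC
  omega

/-- the kernels of the involutions on `W1` agree -/
lemma ker_eq {k l : G} (hk : k * k = 1) (hk1 : k ≠ 1) (hl : l * l = 1) (hl1 : l ≠ 1)
    {x : G → ZMod 2} (hx : x ∈ W1 W w) (hkx : T k x = 0) : T l x = 0 := by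
  have hw3 : w ^ 3 = 1 := by rw [pow_succ, pow_two]; exact hw
  have hCk := claimC h hw hw1 hk hk1
  have hCl := claimC h hw hw1 hl hl1
  have hd := dims1 h hw hw1 ⟨k, hk, hk1⟩
  -- `ker T k ∩ W1 = T k W1`
  have hrn := rank_nullity (W1 W w) (T k)
  have h1 : (W1 W w).map (T k) ≤ W1 W w ⊓ LinearMap.ker (T k) := by
    rintro _ ⟨f, hf, rfl⟩
    exact ⟨(Inv_W1 h.inv w).T k hf, LinearMap.mem_ker.2 (T_sq hk f)⟩
  have h2 : (W1 W w).map (T k) = W1 W w ⊓ LinearMap.ker (T k) :=
    Submodule.eq_of_le_of_finrank_le h1 (by omega)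
  have h3 : x ∈ (W1 W w).map (T k) := by
    rw [h2]; exact ⟨hx, LinearMap.mem_ker.2 hkx⟩
  -- `T l` kills `T k W1`
  have hinv := (Inv_W1 h.inv w).mapT k
  have h4 := two_mul_finrank_mapT hinv hl
  have hev := even_finrank hw3 (hinv.mapT l)
    ((hinv.mapT_le l).trans (((Inv_W1 h.inv w).mapT_le k).trans inf_le_right))
  obtain ⟨m, hm⟩ := hev
  have h5 : finrank (ZMod 2) (((W1 W w).map (T k)).map (T l)) = 0 := by omega
  rw [Submodule.finrank_eq_zero, eq_bot_iff] at h5
  have h6 := h5 (Submodule.mem_map_of_mem (f := T l) h3)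
  rwa [Submodule.mem_bot] at h6

/-- there is a vector of `W0` not killed by any involution -/
lemma exists_eta (hex : ∃ k : G, k * k = 1 ∧ k ≠ 1) :
    ∃ η ∈ W0 W w, ∀ k : G, k * k = 1 → k ≠ 1 → T k η ≠ 0 := by
  have hw3 : w ^ 3 = 1 := by rw [pow_succ, pow_two]; exact hw
  have hwi : w⁻¹ = w * w := inv_eq_of_mul_eq_one_left hw
  have hwwi : (w * w)⁻¹ = w := by rw [← hwi, inv_inv]
  obtain ⟨k, hk, hk1⟩ := hex
  by_cases hA : T k (c1 w α) = 0
  · refine ⟨c0 w α, c0_mem h.inv hw h.ha, ?_⟩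
    intro l hl hl1 hcon
    apply h.Ta hl1
    rw [← c_add w α, map_add, hcon,
      ker_eq h hw hw1 hk hk1 hl hl1 (c1_mem' h.inv hw h.ha) hA, add_zero]
  by_cases hB : T k (c1 w β) = 0
  · refine ⟨c0 w β, c0_mem h.inv hw h.hb, ?_⟩
    intro l hl hl1 hcon
    apply h.Tb hl1
    rw [← c_add w β, map_add, hcon,
      ker_eq h hw hw1 hk hk1 hl hl1 (c1_mem' h.inv hw h.hb) hB, add_zero]
  -- the last case
  have hq : ∃ q : G, L q (T k (c1 w α)) + L q⁻¹ (T k (c1 w β)) = 0 ∧
      ∀ f : G → ZMod 2, L q (c0 w f) = c0 w f := by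
    by_contra hcon
    push Not at hcon
    have hone : ∀ f : G → ZMod 2, L (1 : G) (c0 w f) = c0 w f := fun f => L_one (c0 w f)
    have hww : ∀ f, L w (c0 w f) = c0 w f := fun f => c0_fixed hw f
    have hwww : ∀ f, L (w * w) (c0 w f) = c0 w f := fun f => by rw [L_mul, hww, hww]
    have h4 := four_le hw3 ((Inv_W1 h.inv w).mapT k)
      (((Inv_W1 h.inv w).mapT_le k).trans inf_le_right)
      (Submodule.mem_map_of_mem (f := T k) (c1_mem' h.inv hw h.ha))
      (Submodule.mem_map_of_mem (f := T k) (c1_mem' h.inv hw h.hb)) hA hB ?_ ?_ ?_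
    · rw [claimC h hw hw1 hk hk1] at h4
      omega
    · intro heq
      obtain ⟨f, hf⟩ := hcon 1 (by rw [inv_one, L_one, L_one, heq]; exact addself (T k (c1 w α)))
      exact hf (hone f)
    · intro heq
      obtain ⟨f, hf⟩ := hcon (w * w) (by rw [hwwi, heq, ← L_mul]; exact addself _)
      exact hf (hwww f)
    · intro heq
      obtain ⟨f, hf⟩ := hcon w (by
        rw [hwi, heq, ← L_mul, ← L_mul]
        have h5 : w * w * w * w = w := by rw [hw, one_mul]
        rw [h5]
        exact addself _)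
      exact hf (hww f)
  obtain ⟨q, hq, hfix⟩ := hq
  have hfix' : ∀ f, L q⁻¹ (c0 w f) = c0 w f := by
    intro f
    have h1 := congrArg (L q⁻¹) (hfix f)
    rw [← L_mul, inv_mul_cancel, L_one] at h1
    exact h1.symm
  refine ⟨c0 w α + c0 w β, add_mem (c0_mem h.inv hw h.ha) (c0_mem h.inv hw h.hb), ?_⟩
  intro l hl hl1 hcon
  apply h.Tg hl hl1 q
  have h1 : T k (L q (c1 w α) + L q⁻¹ (c1 w β)) = 0 := by
    rw [map_add, T_L, T_L]; exact hq
  have h2 : T l (L q (c1 w α) + L q⁻¹ (c1 w β)) = 0 :=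
    ker_eq h hw hw1 hk hk1 hl hl1 (add_mem ((Inv_W1 h.inv w) _ _ (c1_mem' h.inv hw h.ha))
      ((Inv_W1 h.inv w) _ _ (c1_mem' h.inv hw h.hb))) h1
  have h3 : L q α + L q⁻¹ β = (c0 w α + c0 w β) + (L q (c1 w α) + L q⁻¹ (c1 w β)) := by
    conv_lhs => rw [← c_add w α, ← c_add w β, map_add, map_add, hfix, hfix']
    abel
  rw [h3, map_add, hcon, h2, add_zero]

/-- images of `W0` under the involutions are constant functions -/
lemma const_of (K : Subgroup G) (hK : Nat.card K = 4) (hK2 : ∀ k ∈ K, k * k = 1)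
    (hn : Fintype.card G = 12) {k : G} (hk : k ∈ K) (hk1 : k ≠ 1) {η : G → ZMod 2}
    (hη : η ∈ W0 W w) (hne : T k η ≠ 0) : T k η = fun _ => 1 := by
  have hd := dims1 h hw hw1 ⟨k, hK2 k hk, hk1⟩
  have h1 := two_mul_finrank_mapT (Inv_W0 h.inv w) (hK2 k hk)
  have hmem : T k η ∈ (W0 W w).map (T k) := Submodule.mem_map_of_mem hη
  -- the stabilizer
  let S : Subgroup G :=
    { carrier := {g | L g (T k η) = T k η}
      mul_mem' := by
        intro a b ha hb
        simp only [Set.mem_ofPred_eq] at ha hb ⊢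
        rw [L_mul, hb, ha]
      one_mem' := L_one _
      inv_mem' := by
        intro a ha
        simp only [Set.mem_ofPred_eq] at ha ⊢
        have := congrArg (L a⁻¹) ha
        rw [← L_mul, inv_mul_cancel, L_one] at this
        exact this.symm }
  have hKS : K ≤ S := by
    intro l hl
    show L l (T k η) = T k η
    rw [← T_eq_zero]
    by_contra hcon
    have h2 := eq_of_finrank_le_one (U := (W0 W w).map (T k)) (by omega)
      (((Inv_W0 h.inv w).mapT k).T l hmem) hmem hcon hne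
    have h3 := T_sq (hK2 l hl) (T k η)
    rw [h2] at h3
    exact hcon h3
  have hwS : w ∈ S := by
    show L w (T k η) = T k η
    rw [← T_L]
    congr 1
    exact (T_eq_zero _ _).1 (LinearMap.mem_ker.1 hη.2)
  have h4 : 4 ∣ Nat.card S := by rw [← hK]; exact Subgroup.card_dvd_of_le hKS
  have hord : orderOf w = 3 := by
    refine orderOf_eq_prime ?_ hw1
    rw [pow_succ, pow_two]; exact hw
  have h3 : 3 ∣ Nat.card S := by
    rw [← hord, ← Nat.card_zpowers]
    exact Subgroup.card_dvd_of_le ((Subgroup.zpowers_le).2 hwS)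
  have h12 : 12 ∣ Nat.card S := (Nat.Coprime.mul_dvd_of_dvd_of_dvd (by norm_num) h4 h3)
  have hle : Nat.card G ≤ Nat.card S := by
    rw [Nat.card_eq_fintype_card, hn]
    exact Nat.le_of_dvd Nat.card_pos h12
  have htop : S = ⊤ := Subgroup.eq_top_of_le_card S hle
  have hinv : ∀ g, T k η g = T k η 1 := by
    intro g
    have hg : g ∈ S := by rw [htop]; exact Subgroup.mem_top g
    have h5 : L g (T k η) = T k η := hg
    have h6 := congrFun h5 g
    rw [L_apply, mul_inv_cancel] at h6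
    exact h6.symm
  funext g
  rw [hinv g]
  refine (z2 _).resolve_left fun h0 => hne ?_
  funext g
  rw [hinv g, h0]; rfl

end main

/-- the case `n = 12` -/
theorem Syn.not_twelve (h : Syn W α β) (hn : Fintype.card G = 12) : False := by
  have : Fact (Nat.Prime 3) := ⟨by norm_num⟩
  have : Fact (Nat.Prime 2) := ⟨by norm_num⟩
  obtain ⟨w, hwo⟩ := exists_prime_orderOf_dvd_card (G := G) 3 (by rw [hn]; norm_num)
  have hw : w * w * w = 1 := by
    have := pow_orderOf_eq_one w
    rwa [hwo, pow_succ, pow_two] at this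
  have hw1 : w ≠ 1 := by rintro rfl; simp at hwo
  obtain ⟨K, hK⟩ := Sylow.exists_subgroup_card_pow_prime (G := G) 2 (n := 2)
    (by rw [Nat.card_eq_fintype_card, hn]; norm_num)
  have hK4 : Nat.card K = 4 := by rw [hK]; norm_num
  by_cases hfour : ∃ g : G, g * g * (g * g) = 1 ∧ g * g ≠ 1
  · obtain ⟨g, hg, hg2⟩ := hfour
    exact no_four h hw hw1 hg hg2
  push Not at hfour
  have hK2 : ∀ k ∈ K, k * k = 1 := by
    intro k hk
    apply hfour
    have h1 : (⟨k, hk⟩ : K) ^ Nat.card K = 1 := pow_card_eq_one'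
    rw [hK4] at h1
    have h2 := congrArg Subtype.val h1
    have h3 : k ^ 4 = 1 := by simpa using h2
    rw [← h3, pow_succ, pow_succ, pow_two]; simp only [mul_assoc]
  -- two distinct involutions
  have hex : ∃ k ∈ K, ∃ l ∈ K, k ≠ 1 ∧ l ≠ 1 ∧ k ≠ l := by
    classical
    by_contra hcon
    push Not at hcon
    have h1 : Nat.card K ≤ 2 := by
      by_cases hb : ∃ k ∈ K, k ≠ 1
      · obtain ⟨k, hk, hk1⟩ := hb
        have hsub : (K : Set G) ⊆ {1, k} := by
          intro l hl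
          by_cases hl1 : l = 1
          · left; exact hl1
          · right; exact (hcon k hk l hl hk1 hl1).symm
        have h2 := Set.ncard_le_ncard hsub (Set.toFinite _)
        have h3 : (({1, k} : Set G)).ncard ≤ 2 := by
          rw [Set.ncard_pair (Ne.symm hk1)]
        have h4 : Nat.card K = (K : Set G).ncard := rfl
        omega
      · push Not at hb
        have hsub : (K : Set G) ⊆ {1} := fun l hl => hb l hl
        have h2 := Set.ncard_le_ncard hsub (Set.toFinite _)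
        rw [Set.ncard_singleton] at h2
        have h4 : Nat.card K = (K : Set G).ncard := rfl
        omega
    omega
  obtain ⟨k, hk, l, hl, hk1, hl1, hkl⟩ := hex
  have hkl1 : k * l ≠ 1 := by
    intro hcon
    apply hkl
    have := hK2 l hl
    exact mul_right_cancel (hcon.trans this.symm)
  obtain ⟨η, hη, hne⟩ := exists_eta h hw hw1 ⟨k, hK2 k hk, hk1⟩
  have h1 := const_of h hw hw1 K hK4 hK2 hn hk hk1 hη (hne k (hK2 k hk) hk1)
  have h2 := const_of h hw hw1 K hK4 hK2 hn hl hl1 hη (hne l (hK2 l hl) hl1)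
  apply hne (k * l) (hK2 _ (mul_mem hk hl)) hkl1
  -- `T (k l) η = T k η + L k (T l η)`
  have h3 : T (k * l) η = T k η + L k (T l η) := by
    simp only [T_apply, map_add, L_mul]
    have := addself (L k η)
    calc η + L k (L l η) = η + (L k η + L k η) + L k (L l η) := by rw [this, add_zero]
      _ = _ := by abel
  rw [h3, h1, h2]
  exact addself _

/-- Part 1: the nondegenerate situation is impossible. -/
theorem Syn.false (h : Syn W α β) : False := by
  have h1 := h.small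
  rcases Nat.lt_or_ge (Fintype.card G) 10 with h2 | h2
  · exact h.not_le_nine (by omega)
  · have h3 : Fintype.card G = 10 ∨ Fintype.card G = 11 ∨ Fintype.card G = 12 := by omega
    rcases h3 with h3 | h3 | h3
    · exact h.not_ten h3
    · exact h.not_eleven h3
    · exact h.not_twelve h3

end MirrorCode
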